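import Pool.Agent.Helper18.KSZ.TheoremN0
import Pool.Agent.Helper33.KSZ.ZFR

/-!
# Theorem N (zeros of zeta near the line 1), unconditional
-/

set_option autoImplicit false

namespace Pool.Agent.Helper18.KSZ

/-- Theorem N -/
theorem theoremN : TheoremN := theoremN_of Helper33.KSZ.inA10

end Pool.Agent.Helper18.KSZ
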