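import Pool.Agent.Helper46.KSZ.St
import Pool.Agent.Helper30.QRH.BadCells

/-!
# KSZ-E10: a cell with few primes makes the prime side of the explicit formula small
-/

set_option autoImplicit false
open Filter Topology Finset
open scoped ArithmeticFunction.vonMangoldt

namespace Pool.Agent.Helper18.KSZ

open Pool.Agent.Helper10.QRH Pool.Agent.Helper46.KSZ Pool.Agent.Helper30.QRH

lemma ker_sum_le {p : ℕ} {lam X : ℝ} (hK : KerFacts) (hp : 1 ≤ p) (y H : ℕ) (hlam : 0 < lam)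
    (hX : 0 < X) (hHX : p * lam * (4 * X) ≤ H) (hy : X ≤ y) (hy2 : (y : ℝ) + H ≤ 2 * X) :
    ∑' n : ℕ, Λ n * ker lam (p - 1) (Real.log (y + H / 2) - Real.log n) ≤
      1 / lam * ∑ n ∈ Ico y (y + H), Λ n := by
  obtain ⟨_, hk0, hk1, hk2⟩ := hK lam hlam (p - 1)
  have hp1 : (((p - 1 : ℕ) : ℝ) + 1) = p := by
    rw [Nat.cast_sub hp]; push_cast; ring
  rw [hp1] at hk2
  set l' : ℝ := p * lam with hl'
  have hl'0 : 0 < l' := by
    have : (0 : ℝ) < p := by exact_mod_cast hp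
    positivity
  have hH : (0 : ℝ) < H := by
    refine lt_of_lt_of_le (by positivity) hHX
  have hy0 : (0 : ℝ) < y := by linarith
  have hz : ∀ n ∉ Ico y (y + H), Λ n * ker lam (p - 1) (Real.log (y + H / 2) - Real.log n) = 0 := by
    intro n hn
    rw [mem_Ico, not_and_or, not_le, not_lt] at hn
    rcases Nat.eq_zero_or_pos n with h0 | h0
    · subst h0
      simp
    have hn0 : (0 : ℝ) < n := by exact_mod_cast h0
    rw [hk2, mul_zero]
    rcases hn with hn | hn
    · have h1 : (n : ℝ) ≤ y := by exact_mod_cast hn.le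
      have h2 := Real.log_le_log hn0 h1
      have h3 := log_gap (a := (y : ℝ)) (b := y + H / 2) hy0 (by linarith)
      have h4 : l' ≤ ((y : ℝ) + H / 2 - y) / (y + H / 2) := by
        rw [le_div_iff₀ (by positivity)]
        nlinarith
      rw [le_abs]
      left
      linarith
    · have h1 : (y : ℝ) + H ≤ n := by exact_mod_cast hn
      have h2 := Real.log_le_log (by positivity) h1
      have h3 := log_gap (a := (y : ℝ) + H / 2) (b := y + H) (by positivity) (by linarith)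
      have h4 : l' ≤ ((y : ℝ) + H - (y + H / 2)) / (y + H) := by
        rw [le_div_iff₀ (by positivity)]
        nlinarith
      rw [le_abs]
      right
      linarith
  rw [tsum_eq_sum hz, mul_sum]
  apply sum_le_sum
  intro n _
  rw [mul_comm]
  exact mul_le_mul_of_nonneg_right (hk1 _) ArithmeticFunction.vonMangoldt_nonneg

lemma num_bound' {K H D X L p : ℝ} (hK : 100 ≤ K) (hp : 1 ≤ p) (hH : 2000 * p * K ^ 2 ≤ H)
    (hD : 2000 * p * K ^ 2 ≤ D) (hX : 0 < X) (_hL0 : 0 ≤ L) (hL : L ≤ 0.6932) :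
    1 / (H / (8 * p * X)) * (((K + 1) * L) * (1 / (200 * p) * H / K + K * (H / D + 1))) ≤
      1 / 8 * X := by
  have hK0 : 0 < K := by linarith
  have hp0 : 0 < p := by linarith
  have hH0 : 0 < H := lt_of_lt_of_le (by positivity) hH
  have hD0 : 0 < D := lt_of_lt_of_le (by positivity) hD
  have e1 : 1 / (H / (8 * p * X)) * (((K + 1) * L) * (1 / (200 * p) * H / K + K * (H / D + 1))) =
      X * (L * ((K + 1) / K) * (8 / 200) + 8 * L * (K + 1) * K * (p / D) +
        8 * L * (K + 1) * K * (p / H)) := by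
    field_simp
    ring
  rw [e1, mul_comm (1 / 8) X]
  apply mul_le_mul_of_nonneg_left _ hX.le
  have h1 : (K + 1) / K ≤ 1.01 := by
    rw [div_le_iff₀ hK0]; linarith
  have h2 : p / D ≤ 1 / (2000 * K ^ 2) := by
    rw [div_le_div_iff₀ hD0 (by positivity)]; linarith
  have h3 : p / H ≤ 1 / (2000 * K ^ 2) := by
    rw [div_le_div_iff₀ hH0 (by positivity)]; linarith
  have h4 : (K + 1) * K * (1 / (2000 * K ^ 2)) ≤ 1.01 / 2000 := by
    rw [mul_one_div, div_le_div_iff₀ (by positivity) (by norm_num)]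
    nlinarith
  have h5 : 0 ≤ (K + 1) * K := by positivity
  have h6 : (K + 1) * K * (p / D) ≤ 1.01 / 2000 :=
    (mul_le_mul_of_nonneg_left h2 h5).trans h4
  have h7 : (K + 1) * K * (p / H) ≤ 1.01 / 2000 :=
    (mul_le_mul_of_nonneg_left h3 h5).trans h4
  have h8 : L * ((K + 1) / K) ≤ 0.6932 * 1.01 := mul_le_mul hL h1 (by positivity) (by norm_num)
  have h9 : 8 * L * (K + 1) * K * (p / D) ≤ 8 * 0.6932 * (1.01 / 2000) := by
    calc 8 * L * (K + 1) * K * (p / D) = (8 * L) * ((K + 1) * K * (p / D)) := by ring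
      _ ≤ (8 * 0.6932) * (1.01 / 2000) := by
          apply mul_le_mul (by linarith) h6 (by positivity) (by norm_num)
  have h10 : 8 * L * (K + 1) * K * (p / H) ≤ 8 * 0.6932 * (1.01 / 2000) := by
    calc 8 * L * (K + 1) * K * (p / H) = (8 * L) * ((K + 1) * K * (p / H)) := by ring
      _ ≤ (8 * 0.6932) * (1.01 / 2000) := by
          apply mul_le_mul (by linarith) h7 (by positivity) (by norm_num)
  linarith

lemma pow_large (B : ℝ) : ∃ K : ℕ, ∀ k : ℕ, K ≤ k → B * (k : ℝ) ^ 2 ≤ (2 : ℝ) ^ ((2 / 5 : ℝ) * k) := by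
  have h1 : 1 < (2 : ℝ) ^ (2 / 5 : ℝ) := Real.one_lt_rpow (by norm_num) (by norm_num)
  have h2 := (tendsto_pow_const_div_const_pow_of_one_lt 2 h1).const_mul B
  rw [mul_zero] at h2
  have h4 := h2.eventually (gt_mem_nhds (show (0 : ℝ) < 1 by norm_num))
  obtain ⟨K, hK⟩ := eventually_atTop.mp h4
  refine ⟨K, fun k hk => ?_⟩
  have h5 := (hK k hk).le
  have h6 : (0 : ℝ) < ((2 : ℝ) ^ (2 / 5 : ℝ)) ^ k := by positivity
  rw [← mul_div_assoc, div_le_one h6] at h5
  rw [Real.rpow_mul (by norm_num), Real.rpow_natCast]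
  exact h5

lemma ee_large {d : ℝ} (hd0 : 0 < d) (hd : d ≤ 1 / 100) {k : ℕ} (hk : 20 ≤ k) :
    (2 : ℝ) ^ ((2 / 5 : ℝ) * k) ≤ (2 : ℝ) ^ ee d k ∧
    (2 : ℝ) ^ ((2 / 5 : ℝ) * k) ≤ (((2 : ℕ) ^ (k / 2) : ℕ) : ℝ) ∧ ee d k ≤ k := by
  have hk' : (20 : ℝ) ≤ k := by exact_mod_cast hk
  refine ⟨?_, ?_, ?_⟩
  · rw [← Real.rpow_natCast 2 (ee d k)]
    apply Real.rpow_le_rpow_of_exponent_le (by norm_num)
    have h1 := Nat.lt_floor_add_one ((k : ℝ) * (1 / 2 - d))
    unfold ee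
    nlinarith
  · push_cast
    rw [← Real.rpow_natCast 2 (k / 2)]
    apply Real.rpow_le_rpow_of_exponent_le (by norm_num)
    have h1 : k ≤ 2 * (k / 2) + 1 := by omega
    have h2 : (k : ℝ) ≤ 2 * ((k / 2 : ℕ) : ℝ) + 1 := by exact_mod_cast h1
    linarith
  · unfold ee
    apply Nat.floor_le_of_le
    nlinarith

/-- E10 -/
theorem primeSide (h8 : KerFacts) : PrimeSide := by
  intro p d hp hd0 hd
  obtain ⟨K, hK⟩ := pow_large (2000 * p)
  refine ⟨max K 100, fun k hk j hj hfew => ?_⟩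
  have hkK : K ≤ k := (le_max_left _ _).trans hk
  have hk100 : 100 ≤ k := (le_max_right _ _).trans hk
  have hk100' : (100 : ℝ) ≤ k := by exact_mod_cast hk100
  obtain ⟨he1, he2, he3⟩ := ee_large hd0 hd (by omega : 20 ≤ k)
  have hbig := hK k hkK
  set e := ee d k with he
  have hp' : (1 : ℝ) ≤ p := by exact_mod_cast hp
  have hp0 : (0 : ℝ) < p := by linarith
  set X : ℝ := (2 : ℝ) ^ k with hX
  have hX0 : 0 < X := by positivity
  set y : ℕ := 2 ^ k + j * 2 ^ e with hy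
  have hyH : y + 2 ^ e ≤ 2 ^ (k + 1) := by
    have h1 : (j + 1) * 2 ^ e ≤ 2 ^ (k - e) * 2 ^ e := Nat.mul_le_mul_right _ hj
    rw [← pow_add, Nat.sub_add_cancel he3] at h1
    rw [hy, pow_succ]
    nlinarith
  have hlamdef : lamk p d k = (2 : ℝ) ^ e / (8 * p * X) := rfl
  have hlam0 : 0 < lamk p d k := by rw [hlamdef]; positivity
  have hu : uu d k j = Real.log ((y : ℝ) + ((2 ^ e : ℕ) : ℝ) / 2) := by
    unfold uu
    rw [hy, he]
    push_cast
    ring_nf
  have hcell : cell d k j = Ico y (y + 2 ^ e) := by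
    unfold cell
    rw [hy]
    congr 1
    ring
  have h1 := ker_sum_le (X := X) h8 hp y (2 ^ e) hlam0 hX0 (by
      rw [hlamdef]
      push_cast
      have : (p : ℝ) * (2 ^ e / (8 * p * X)) * (4 * X) = 2 ^ e / 2 := by
        field_simp; ring
      rw [this]
      have : (0 : ℝ) < 2 ^ e := by positivity
      linarith)
    (by rw [hy, hX]; push_cast; have : (0 : ℝ) ≤ (j : ℝ) * 2 ^ e := by positivity
        linarith)
    (by rw [hX]; have : ((y + 2 ^ e : ℕ) : ℝ) ≤ ((2 ^ (k + 1) : ℕ) : ℝ) := by exact_mod_cast hyH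
        push_cast at this ⊢
        rw [pow_succ] at this
        linarith)
  rw [hu]
  refine h1.trans ?_
  have hD0 : 0 < 2 ^ (k / 2) := by positivity
  have hDD : 2 ^ (k / 2) * 2 ^ (k / 2) ≤ y := by
    rw [← pow_add]
    have : 2 ^ (k / 2 + k / 2) ≤ 2 ^ k := Nat.pow_le_pow_right (by norm_num) (by omega)
    rw [hy]; omega
  have hfew' : ((((Ico y (y + 2 ^ e)).filter Nat.Prime).card : ℕ) : ℝ) ≤
      1 / (200 * p) * (2 : ℝ) ^ e / k := by
    unfold Few at hfew
    rw [hcell] at hfew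
    exact hfew.le
  have h2 := cell_sum k y (2 ^ e) (2 ^ (k / 2)) hD0 hDD hyH _ hfew'
  have h3 : 1 / lamk p d k * ∑ n ∈ Ico y (y + 2 ^ e), Λ n ≤
      1 / lamk p d k * (((k + 1) * Real.log 2) * (1 / (200 * p) * (2 : ℝ) ^ e / k +
        k * (((2 ^ e : ℕ) : ℝ) / ((2 ^ (k / 2) : ℕ) : ℝ) + 1))) :=
    mul_le_mul_of_nonneg_left h2 (by positivity)
  refine h3.trans ?_
  rw [hlamdef]
  have h4 := num_bound' (K := k) (H := (2 : ℝ) ^ e) (D := ((2 ^ (k / 2) : ℕ) : ℝ)) (X := X)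
    (L := Real.log 2) (p := p) hk100' hp' (hbig.trans he1) (hbig.trans he2) hX0
    (Real.log_nonneg (by norm_num)) (by have := Real.log_two_lt_d9; linarith)
  push_cast at h4 ⊢
  exact h4

end Pool.Agent.Helper18.KSZ
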