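import Mathlib
import Pool.Agent.Helper96.CPAP.SieveK

/-!
# Theorem N (zeros of zeta near the line 1): definitions and module statements
(project KSZ, Section 3 of KS_H60_counting.md)
-/

set_option autoImplicit false

open Finset

namespace Pool.Agent.Helper18.KSZ

/-- all prime factors are at most `w` -/
def smooth (w : ℝ) (n : ℕ) : Prop := ∀ p : ℕ, p.Prime → p ∣ n → (p : ℝ) ≤ w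

/-- all prime factors are larger than `w` -/
def rough (w : ℝ) (n : ℕ) : Prop := ∀ p : ℕ, p.Prime → p ∣ n → w < (p : ℝ)

/-- multiplicity of a zero -/
noncomputable def mz (ρ : ℂ) : ℝ := (analyticOrderNatAt riemannZeta ρ : ℝ)

/-! ## Classical inputs -/

/-- (A3), from the k-th derivative tests -/
def InA3 : Prop := ∀ A : ℝ, 1 ≤ A → ∃ c C : ℝ, 0 < c ∧ 0 < C ∧ ∀ (N N1 : ℕ) (t : ℝ),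
  1 ≤ N → N < N1 → N1 ≤ 2 * N → (N : ℝ) ^ (1 / A) ≤ t → t ≤ (N : ℝ) ^ A →
  ‖∑ n ∈ Ioc N N1, (n : ℂ) ^ (-((t : ℂ) * Complex.I))‖ ≤ C * (N : ℝ) ^ (1 - c)

/-- (A9 iii), density lemma -/
def InA9 : Prop := ∃ C : ℝ, 0 < C ∧ ∀ t r : ℝ, 2 ≤ |t| → 0 < r → r ≤ 1 / 10 →
  ∀ Z : Finset ℂ, (∀ ρ ∈ Z, riemannZeta ρ = 0 ∧ ‖ρ - (1 + (t : ℂ) * Complex.I)‖ ≤ r) →
  ∑ ρ ∈ Z, mz ρ ≤ C * (1 + r * Real.log (|t| + 2))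

/-- (A10), zero-free region with a large constant -/
def InA10 : Prop := ∀ C0 : ℝ, ∃ T0 : ℝ, 2 ≤ T0 ∧ ∀ ρ : ℂ, riemannZeta ρ = 0 → T0 ≤ |ρ.im| →
  ρ.re ≤ 1 - C0 / Real.log |ρ.im|

/-! ## N1: the sieve weights -/

/-- `beta` -/
noncomputable def bet (lam : ℕ → ℝ) (n : ℕ) : ℝ := ∑ d ∈ n.divisors, lam d

/-- upper bound sieve weights of level `w ^ K` -/
structure SW (K C w : ℝ) (lam : ℕ → ℝ) : Prop where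
  one : lam 1 = 1
  abs_le : ∀ d, |lam d| ≤ 1
  supp : ∀ d, lam d ≠ 0 → 0 < d ∧ smooth w d ∧ (d : ℝ) ≤ w ^ K
  nonneg : ∀ n, 0 < n → 0 ≤ bet lam n
  small : ∀ x : ℝ, 0 ≤ x → w ^ x ≤ 11 / 10 → ∀ S : Finset ℕ, (∀ n ∈ S, 1 < n ∧ smooth w n) →
    ∑ n ∈ S, bet lam n * (n : ℝ) ^ (x - 1) ≤ 1 / 8
  mean : |∑ d ∈ Icc 1 ⌊w ^ K⌋₊, lam d / d| ≤ C / Real.log w

/-- N1 -/
def SieveWeights : Prop := ∃ K C : ℝ, 1 ≤ K ∧ 0 < C ∧ ∀ w : ℝ, 2 ≤ w → ∃ lam : ℕ → ℝ, SW K C w lam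

open Classical in
/-- the explicit Brun-Hooley weights: at most `2 (b + j)` prime factors from the block
`pb Nat.Prime w j`, i.e. the primes in `(w ^ (1/2^(j+1)), w ^ (1/2^j)]` -/
noncomputable def lamE (b : ℕ) (w : ℝ) (d : ℕ) : ℝ :=
  if 0 < d ∧ smooth w d ∧ ∀ j < Helper44.nb w,
      (d.primeFactors ∩ Helper96.CPAP.pb Nat.Prime w j).card ≤ 2 * (b + j)
  then (ArithmeticFunction.moebius d : ℝ) else 0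

/-- number of prime factors of `n` in block `j` -/
noncomputable def omB (w : ℝ) (j n : ℕ) : ℕ :=
  (n.primeFactors ∩ Helper96.CPAP.pb Nat.Prime w j).card

/-- N1a -/
def LamBasic : Prop := ∀ (b : ℕ) (w : ℝ), 2 ≤ w →
  lamE b w 1 = 1 ∧ (∀ d, |lamE b w d| ≤ 1) ∧
  (∀ d, lamE b w d ≠ 0 → 0 < d ∧ smooth w d ∧ (d : ℝ) ≤ w ^ ((4 * b + 4 : ℕ) : ℝ)) ∧
  (∀ n, 0 < n → 0 ≤ bet (lamE b w) n) ∧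
  (∀ n, 0 < n → bet (lamE b w) n ≤ ∏ j ∈ range (Helper44.nb w),
    (if omB w j n = 0 then 1 else if omB w j n ≤ 2 * (b + j) then 0 else (2 : ℝ) ^ omB w j n))

/-- N1b -/
def LamSmall : Prop := ∃ b0 : ℕ, ∀ b : ℕ, b0 ≤ b → ∀ w : ℝ, 2 ≤ w → ∀ x : ℝ, 0 ≤ x →
  w ^ x ≤ 11 / 10 → ∀ S : Finset ℕ, (∀ n ∈ S, 1 < n ∧ smooth w n) →
  ∑ n ∈ S, bet (lamE b w) n * (n : ℝ) ^ (x - 1) ≤ 1 / 8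

/-- N1c -/
def LamMean : Prop := ∀ b : ℕ, ∃ C : ℝ, 0 < C ∧ ∀ w : ℝ, 2 ≤ w →
  |∑ d ∈ Icc 1 ⌊w ^ ((4 * b + 4 : ℕ) : ℝ)⌋₊, lamE b w d / d| ≤ C / Real.log w

/-! ## N2: coefficients of the mollified zeta function -/

open Classical in
/-- truncated Moebius function on rough integers -/
noncomputable def mur (w D : ℝ) (d : ℕ) : ℝ :=
  if rough w d ∧ (d : ℝ) ≤ D then (ArithmeticFunction.moebius d : ℝ) else 0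

/-- `alpha` -/
noncomputable def alp (w D : ℝ) (n : ℕ) : ℝ := ∑ d ∈ n.divisors, mur w D d

/-- coefficients of the mollifier `M1 M2` -/
noncomputable def cc (lam : ℕ → ℝ) (w D : ℝ) (d : ℕ) : ℝ :=
  ∑ x ∈ d.divisorsAntidiagonal, lam x.1 * mur w D x.2

open Classical in
/-- N2 -/
def Coeffs : Prop := ∀ (K C w : ℝ) (lam : ℕ → ℝ), 2 ≤ w → SW K C w lam → ∀ D : ℝ, 1 ≤ D →
  cc lam w D 1 = 1 ∧ (∀ d, |cc lam w D d| ≤ 1) ∧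
  (∀ d, cc lam w D d ≠ 0 → 0 < d ∧ (d : ℝ) ≤ w ^ K * D) ∧
  (∀ n, 0 < n → ∑ d ∈ n.divisors, cc lam w D d = bet lam n * alp w D n) ∧
  (∀ n : ℕ, 0 < n → (n : ℝ) ≤ D → alp w D n = if smooth w n then 1 else 0) ∧
  (∀ a m, 0 < a → 0 < m → smooth w a → rough w m →
    bet lam (a * m) = bet lam a ∧ alp w D (a * m) = alp w D m ∧
    |alp w D m| ≤ 2 ^ m.primeFactors.card)

/-! ## N3, N4: sums over rough integers, first factor of the duality argument -/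

open Classical in
/-- N3 (Mertens, Euler products over `factoredNumbers`) -/
def RoughSums : Prop := ∃ C : ℝ, 0 < C ∧ ∀ w Y : ℝ, 2 ≤ w → w ≤ Y →
  ∑ m ∈ (Icc 1 ⌊Y⌋₊).filter (rough w), 1 / (m : ℝ) ≤ C * (Real.log Y / Real.log w) ∧
  ∑ m ∈ (Icc 1 ⌊Y⌋₊).filter (rough w), 4 ^ m.primeFactors.card / (m : ℝ) ≤
    C * (Real.log Y / Real.log w) ^ 4

/-- N4 -/
def FirstFactor : Prop := ∀ K C : ℝ, 1 ≤ K → 0 < C → ∃ C' : ℝ, 0 < C' ∧ ∀ (w : ℝ) (lam : ℕ → ℝ),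
  2 ≤ w → SW K C w lam → ∀ D Y : ℝ, 1 ≤ D → w ≤ Y →
  ∑ n ∈ Icc 1 ⌊Y⌋₊, bet lam n / n ≤ C' * (Real.log Y / Real.log w) ∧
  ∑ n ∈ Icc 1 ⌊Y⌋₊, bet lam n * alp w D n ^ 2 / n ≤ C' * (Real.log Y / Real.log w) ^ 4

/-! ## N5, N6: exponential sums -/

/-- N5 -/
def ExpSum : Prop := ∃ c ε X0 : ℝ, 0 < c ∧ 0 < ε ∧ ∀ X : ℝ, X0 ≤ X → ∀ t : ℝ,
  X ^ (1 / 200 : ℝ) ≤ |t| → |t| ≤ X ^ (61 / 100 : ℝ) → ∀ M M' : ℕ, X ^ (3 / 200 : ℝ) ≤ M →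
  M ≤ M' → (M' : ℝ) ≤ X ^ (4 : ℝ) → ∀ σ : ℝ, 1 - ε ≤ σ → σ ≤ 1 →
  ‖∑ n ∈ Ioc M M', (n : ℂ) ^ (-((σ : ℂ) + (t : ℂ) * Complex.I))‖ ≤ X ^ (-c)

/-- N6: partial sums at a zero -/
def ZeroSum : Prop := ∃ c ε X0 : ℝ, 0 < c ∧ 0 < ε ∧ ∀ X : ℝ, X0 ≤ X → ∀ ρ : ℂ,
  riemannZeta ρ = 0 → 1 - ε ≤ ρ.re → X ^ (3 / 10 : ℝ) ≤ |ρ.im| → |ρ.im| ≤ X ^ (6 / 10 : ℝ) →
  ∀ M : ℕ, X ^ (1 / 10 : ℝ) ≤ M → (M : ℝ) ≤ X → ‖∑ n ∈ Icc 1 M, (n : ℂ) ^ (-ρ)‖ ≤ X ^ (-c)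

/-! ## N7: detection of zeros -/

/-- N7 -/
def Detect : Prop := ∀ K C : ℝ, 1 ≤ K → 0 < C → ∃ ε X0 : ℝ, 0 < ε ∧ ∀ X : ℝ, X0 ≤ X →
  ∀ (w : ℝ) (lam : ℕ → ℝ), 2 ≤ w → w ^ K ≤ X ^ (1 / 100 : ℝ) → SW K C w lam →
  ∀ ρ : ℂ, riemannZeta ρ = 0 → 1 - ε ≤ ρ.re → w ^ (1 - ρ.re) ≤ 11 / 10 →
  X ^ (3 / 10 : ℝ) ≤ |ρ.im| → |ρ.im| ≤ X ^ (6 / 10 : ℝ) →
  1 / 2 ≤ ‖∑ n ∈ Ioc ⌊X ^ (1 / 20 : ℝ)⌋₊ ⌊X ^ (1 / 5 : ℝ)⌋₊,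
    ((bet lam n * alp w (X ^ (1 / 20 : ℝ)) n : ℝ) : ℂ) * (n : ℂ) ^ (-ρ)‖

/-! ## N8, N9, N10: the kernel of the duality argument -/

/-- trapezoid in `log y / log X`: zero outside `[1/40, 1/4]`, one on `[1/20, 1/5]` -/
noncomputable def trap (X y : ℝ) : ℝ :=
  max 0 (min 1 (min (40 * (Real.log y / Real.log X) - 1) (5 - 20 * (Real.log y / Real.log X))))

/-- its integral against `y ^ (-s)` -/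
noncomputable def Itr (X : ℝ) (s : ℂ) : ℂ :=
  (20 * ((X : ℂ) ^ ((1 - s) / 4) - (X : ℂ) ^ ((1 - s) / 5)) -
    40 * ((X : ℂ) ^ ((1 - s) / 20) - (X : ℂ) ^ ((1 - s) / 40))) /
    ((Real.log X : ℂ) * (1 - s) ^ 2)

/-- N8: inner sum, small ordinates -/
def InnerSmall : Prop := ∃ C X0 : ℝ, 0 < C ∧ ∀ X : ℝ, X0 ≤ X → ∀ d : ℕ, 1 ≤ d →
  (d : ℝ) ≤ X ^ (1 / 100 : ℝ) → ∀ s : ℂ, 9 / 10 ≤ s.re → s.re ≤ 1 → s ≠ 1 →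
  ‖∑ m ∈ Icc 1 ⌊X⌋₊, (trap X ((d : ℝ) * m) : ℂ) * (m : ℂ) ^ (-s) - (d : ℂ) ^ (s - 1) * Itr X s‖ ≤
    C * (1 + ‖s‖) * X ^ (-(1 / 100) : ℝ)

/-- N9: inner sum, large ordinates -/
def InnerLarge : Prop := ∃ c ε X0 : ℝ, 0 < c ∧ 0 < ε ∧ ∀ X : ℝ, X0 ≤ X → ∀ d : ℕ, 1 ≤ d →
  (d : ℝ) ≤ X ^ (1 / 100 : ℝ) → ∀ s : ℂ, 1 - ε ≤ s.re → s.re ≤ 1 →
  X ^ (1 / 200 : ℝ) ≤ |s.im| → |s.im| ≤ X ^ (61 / 100 : ℝ) →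
  ‖∑ m ∈ Icc 1 ⌊X⌋₊, (trap X ((d : ℝ) * m) : ℂ) * (m : ℂ) ^ (-s)‖ ≤ X ^ (-c)

/-- the kernel -/
noncomputable def Ker (lam : ℕ → ℝ) (X : ℝ) (s : ℂ) : ℂ :=
  ∑ n ∈ Icc 1 ⌊X⌋₊, ((bet lam n * trap X n : ℝ) : ℂ) * (n : ℂ) ^ (-s)

/-- N10 -/
def KerBound : Prop := ∀ K C : ℝ, 1 ≤ K → 0 < C → ∃ c ε C' X0 : ℝ, 0 < c ∧ 0 < ε ∧ 0 < C' ∧
  ∀ X : ℝ, X0 ≤ X → ∀ (w : ℝ) (lam : ℕ → ℝ), 2 ≤ w → w ^ K ≤ X ^ (1 / 100 : ℝ) → SW K C w lam →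
  ∀ s : ℂ, 1 - ε ≤ s.re → s.re ≤ 1 → s.im ≠ 0 → |s.im| ≤ X ^ (61 / 100 : ℝ) →
  ‖Ker lam X s‖ ≤ C' * X ^ ((1 - s.re) / 4) / (Real.log w * Real.log X * s.im ^ 2) + X ^ (-c)

/-! ## N11: well spaced points -/

/-- N11 -/
def Spaced : Prop := ∀ δ : ℝ, 0 < δ → ∀ Γ : Finset ℂ,
  (∀ ρ ∈ Γ, ∀ ρ' ∈ Γ, ρ ≠ ρ' → δ ≤ |ρ.im - ρ'.im|) →
  ∀ ρ ∈ Γ, ∑ ρ' ∈ Γ.erase ρ, 1 / (ρ.im - ρ'.im) ^ 2 ≤ 4 / δ ^ 2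

/-! ## N12 - N15: density, multiplicity, final sum -/

/-- N12: log-free density of well spaced zeros -/
def Density : Prop := ∃ ε C X0 : ℝ, 0 < ε ∧ 0 < C ∧ ∀ X : ℝ, X0 ≤ X → ∀ c : ℝ, 1 ≤ c →
  c ≤ ε * Real.log X → ∀ Γ : Finset ℂ,
  (∀ ρ ∈ Γ, riemannZeta ρ = 0 ∧ 1 - c / Real.log X ≤ ρ.re ∧ X ^ (3 / 10 : ℝ) ≤ |ρ.im| ∧
    |ρ.im| ≤ X ^ (6 / 10 : ℝ)) →
  (∀ ρ ∈ Γ, ∀ ρ' ∈ Γ, ρ ≠ ρ' → 1 / Real.log X ≤ |ρ.im - ρ'.im|) →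
  (Γ.card : ℝ) ≤ C * c ^ 5 * Real.exp (c / 2)

/-- N13: with multiplicities, no spacing -/
def DensityM : Prop := ∃ ε C X0 : ℝ, 0 < ε ∧ 0 < C ∧ ∀ X : ℝ, X0 ≤ X → ∀ c : ℝ, 1 ≤ c →
  c ≤ ε * Real.log X → ∀ Z : Finset ℂ,
  (∀ ρ ∈ Z, riemannZeta ρ = 0 ∧ 1 - c / Real.log X ≤ ρ.re ∧ X ^ (3 / 10 : ℝ) ≤ |ρ.im| ∧
    |ρ.im| ≤ X ^ (6 / 10 : ℝ)) →
  ∑ ρ ∈ Z, mz ρ ≤ C * c ^ 6 * Real.exp (c / 2)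

/-- N14: one level -/
def OneLevel : Prop := ∃ ε : ℝ, 0 < ε ∧ ∀ η : ℝ, 0 < η → ∃ X0 : ℝ, ∀ X : ℝ, X0 ≤ X →
  ∀ Z : Finset ℂ, (∀ ρ ∈ Z, riemannZeta ρ = 0 ∧ 1 - ε ≤ ρ.re ∧ X ^ (3 / 10 : ℝ) ≤ |ρ.im| ∧
    |ρ.im| ≤ X ^ (6 / 10 : ℝ)) →
  ∑ ρ ∈ Z, mz ρ * X ^ (ρ.re - 1) ≤ η

/-- N15: Theorem N -/
def TheoremN : Prop := ∃ ε : ℝ, 0 < ε ∧ ∀ η : ℝ, 0 < η → ∃ X0 : ℝ, ∀ X : ℝ, X0 ≤ X →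
  ∀ Z : Finset ℂ, (∀ ρ ∈ Z, riemannZeta ρ = 0 ∧ 1 - ε ≤ ρ.re ∧ |ρ.im| ≤ X ^ (6 / 10 : ℝ)) →
  ∑ ρ ∈ Z, mz ρ * X ^ (ρ.re - 1) ≤ η

end Pool.Agent.Helper18.KSZ
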