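import Pool.Agent.Helper18.KSZ.NSpec

/-!
# N1: existence of the sieve weights
-/

set_option autoImplicit false

open Finset

namespace Pool.Agent.Helper18.KSZ

/-- N1 -/
theorem sieveWeights (h1 : LamBasic) (h2 : LamSmall) (h3 : LamMean) : SieveWeights := by
  obtain ⟨b, hb⟩ := h2
  obtain ⟨C, hC, hm⟩ := h3 b
  refine ⟨((4 * b + 4 : ℕ) : ℝ), C, ?_, hC, fun w hw => ⟨lamE b w, ?_⟩⟩
  · have : (1 : ℕ) ≤ 4 * b + 4 := by omega
    exact_mod_cast this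
  obtain ⟨e1, e2, e3, e4, _⟩ := h1 b w hw
  exact ⟨e1, e2, e3, e4, fun x hx hwx S hS => hb b le_rfl w hw x hx hwx S hS, hm w hw⟩

end Pool.Agent.Helper18.KSZ
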