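import Pool.Agent.Helper18.KSZ.NSpec

/-!
# N11: well spaced points
-/

set_option autoImplicit false

open Finset

namespace Pool.Agent.Helper18.KSZ

/-- sum of inverse squares of positive integers in a finite set -/
lemma sum_inv_sq_le_two (s : Finset ℕ) (h : ∀ n ∈ s, 0 < n) : ∑ n ∈ s, ((n : ℝ) ^ 2)⁻¹ ≤ 2 := by
  have h1 : s ⊆ Finset.Ioo 0 (s.sup id + 1) := by
    intro n hn
    rw [Finset.mem_Ioo]
    exact ⟨h n hn, Nat.lt_succ_of_le (Finset.le_sup (f := id) hn)⟩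
  refine (Finset.sum_le_sum_of_subset_of_nonneg h1 fun n _ _ => by positivity).trans ?_
  have h2 := sum_Ioo_inv_sq_le (α := ℝ) 0 (s.sup id + 1)
  simpa using h2

/-- one side -/
lemma spaced_side {δ : ℝ} (hδ : 0 < δ) (G : Finset ℂ) (v : ℂ → ℝ) (h1 : ∀ z ∈ G, δ ≤ v z)
    (h2 : ∀ z ∈ G, ∀ z' ∈ G, z ≠ z' → δ ≤ |v z - v z'|) :
    ∑ z ∈ G, 1 / (v z) ^ 2 ≤ 2 / δ ^ 2 := by
  classical
  set k : ℂ → ℕ := fun z => ⌊v z / δ⌋₊ with hk
  have hkpos : ∀ z ∈ G, 0 < k z := by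
    intro z hz
    rw [hk]
    apply Nat.floor_pos.mpr
    rw [le_div_iff₀ hδ, one_mul]
    exact h1 z hz
  have hinj : Set.InjOn k (G : Set ℂ) := by
    intro z hz z' hz' heq
    by_contra hne
    have h3 := h2 z hz z' hz' hne
    have hv : 0 ≤ v z / δ := div_nonneg (hδ.le.trans (h1 z hz)) hδ.le
    have hv' : 0 ≤ v z' / δ := div_nonneg (hδ.le.trans (h1 z' hz')) hδ.le
    have a1 := Nat.floor_le hv
    have a2 := Nat.lt_floor_add_one (v z / δ)
    have a3 := Nat.floor_le hv'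
    have a4 := Nat.lt_floor_add_one (v z' / δ)
    have heq' : (⌊v z / δ⌋₊ : ℝ) = (⌊v z' / δ⌋₊ : ℝ) := by
      have : ⌊v z / δ⌋₊ = ⌊v z' / δ⌋₊ := heq
      rw [this]
    have a5 : |v z / δ - v z' / δ| < 1 := by
      rw [abs_lt]
      constructor <;> linarith
    rw [← sub_div, abs_div, abs_of_pos hδ, div_lt_one hδ] at a5
    linarith
  calc ∑ z ∈ G, 1 / (v z) ^ 2 ≤ ∑ z ∈ G, ((k z : ℝ) ^ 2)⁻¹ * (1 / δ ^ 2) := by
        apply Finset.sum_le_sum
        intro z hz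
        have h3 : (0 : ℝ) < k z := by exact_mod_cast hkpos z hz
        have h4 : (k z : ℝ) ≤ v z / δ :=
          Nat.floor_le (div_nonneg (hδ.le.trans (h1 z hz)) hδ.le)
        have h5 : (k z : ℝ) * δ ≤ v z := (le_div_iff₀ hδ).mp h4
        have h6 : 0 < (k z : ℝ) * δ := by positivity
        calc 1 / (v z) ^ 2 ≤ 1 / ((k z : ℝ) * δ) ^ 2 := by
              apply one_div_le_one_div_of_le (by positivity)
              exact pow_le_pow_left₀ h6.le h5 2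
          _ = _ := by
              field_simp
    _ = (∑ z ∈ G, ((k z : ℝ) ^ 2)⁻¹) * (1 / δ ^ 2) := by rw [Finset.sum_mul]
    _ = (∑ n ∈ G.image k, ((n : ℝ) ^ 2)⁻¹) * (1 / δ ^ 2) := by
        rw [Finset.sum_image hinj]
    _ ≤ 2 * (1 / δ ^ 2) := by
        apply mul_le_mul_of_nonneg_right _ (by positivity)
        apply sum_inv_sq_le_two
        intro n hn
        rw [Finset.mem_image] at hn
        obtain ⟨z, hz, rfl⟩ := hn
        exact hkpos z hz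
    _ = 2 / δ ^ 2 := by ring

/-- N11 -/
theorem spaced : Spaced := by
  classical
  intro δ hδ Γ hΓ ρ hρ
  have hne : ∀ ρ' ∈ Γ.erase ρ, δ ≤ |ρ.im - ρ'.im| := by
    intro ρ' hρ'
    exact hΓ ρ hρ ρ' (Finset.mem_of_mem_erase hρ') (Finset.ne_of_mem_erase hρ').symm
  rw [← Finset.sum_filter_add_sum_filter_not (Γ.erase ρ) (fun ρ' => ρ'.im ≤ ρ.im)]
  have e1 : ∑ ρ' ∈ (Γ.erase ρ).filter (fun ρ' => ρ'.im ≤ ρ.im), 1 / (ρ.im - ρ'.im) ^ 2 ≤
      2 / δ ^ 2 := by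
    apply spaced_side hδ _ (fun z => ρ.im - z.im)
    · intro z hz
      rw [Finset.mem_filter] at hz
      have h1 := hne z hz.1
      rwa [abs_of_nonneg (by linarith [hz.2])] at h1
    · intro z hz z' hz' hzz
      rw [Finset.mem_filter] at hz hz'
      have h1 := hΓ z (Finset.mem_of_mem_erase hz.1) z' (Finset.mem_of_mem_erase hz'.1) hzz
      have : ρ.im - z.im - (ρ.im - z'.im) = -(z.im - z'.im) := by ring
      rw [this, abs_neg]
      exact h1
  have e2 : ∑ ρ' ∈ (Γ.erase ρ).filter (fun ρ' => ¬ ρ'.im ≤ ρ.im), 1 / (ρ.im - ρ'.im) ^ 2 ≤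
      2 / δ ^ 2 := by
    have e3 : ∑ ρ' ∈ (Γ.erase ρ).filter (fun ρ' => ¬ ρ'.im ≤ ρ.im), 1 / (ρ.im - ρ'.im) ^ 2 =
        ∑ ρ' ∈ (Γ.erase ρ).filter (fun ρ' => ¬ ρ'.im ≤ ρ.im), 1 / (ρ'.im - ρ.im) ^ 2 := by
      refine Finset.sum_congr rfl fun z _ => ?_
      congr 1
      ring
    rw [e3]
    apply spaced_side hδ _ (fun z => z.im - ρ.im)
    · intro z hz
      rw [Finset.mem_filter] at hz
      have h1 := hne z hz.1
      rw [abs_sub_comm, abs_of_nonneg (by linarith [not_le.mp hz.2])] at h1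
      exact h1
    · intro z hz z' hz' hzz
      rw [Finset.mem_filter] at hz hz'
      have h1 := hΓ z (Finset.mem_of_mem_erase hz.1) z' (Finset.mem_of_mem_erase hz'.1) hzz
      have : z.im - ρ.im - (z'.im - ρ.im) = z.im - z'.im := by ring
      rw [this]
      exact h1
  calc _ ≤ 2 / δ ^ 2 + 2 / δ ^ 2 := add_le_add e1 e2
    _ = 4 / δ ^ 2 := by ring

end Pool.Agent.Helper18.KSZ
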