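import Pool.Agent.Helper18.KSZ.NSpec

/-!
# N12: log-free density of well spaced zeros near the line 1 (duality)
-/

set_option autoImplicit false

open Finset

namespace Pool.Agent.Helper18.KSZ

lemma trap_nonneg (X y : ℝ) : 0 ≤ trap X y := le_max_left _ _

lemma trap_eq_one {X y : ℝ} (hX : 1 < X) (h1 : X ^ (1 / 20 : ℝ) ≤ y) (h2 : y ≤ X ^ (1 / 5 : ℝ)) :
    trap X y = 1 := by
  have hL : 0 < Real.log X := Real.log_pos hX
  have hX0 : 0 < X := by linarith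
  have hy : 0 < y := lt_of_lt_of_le (Real.rpow_pos_of_pos hX0 _) h1
  have e1 : 1 / 20 * Real.log X ≤ Real.log y := by
    rw [← Real.log_rpow hX0]
    exact Real.log_le_log (Real.rpow_pos_of_pos hX0 _) h1
  have e2 : Real.log y ≤ 1 / 5 * Real.log X := by
    rw [← Real.log_rpow hX0]
    exact Real.log_le_log hy h2
  have e3 : 1 / 20 ≤ Real.log y / Real.log X := by
    rw [le_div_iff₀ hL]; exact e1
  have e4 : Real.log y / Real.log X ≤ 1 / 5 := by
    rw [div_le_iff₀ hL]; exact e2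
  unfold trap
  rw [min_eq_left, max_eq_right (by norm_num)]
  refine le_min ?_ ?_ <;> linarith

lemma dual_aux {Γ : Finset ℂ} {X : ℝ} {be al : ℕ → ℝ} (hbe : ∀ n, 0 < n → 0 ≤ be n) {a b : ℕ}
    (hb : b ≤ ⌊X⌋₊) (htrap : ∀ n ∈ Ioc a b, trap X n = 1)
    (hS : ∀ ρ ∈ Γ, 1 / 2 ≤ ‖∑ n ∈ Ioc a b, ((be n * al n : ℝ) : ℂ) * (n : ℂ) ^ (-ρ)‖) :
    ((Γ.card : ℝ) / 2) ^ 2 ≤ (∑ n ∈ Ioc a b, be n * al n ^ 2 / n) *
      ∑ ρ ∈ Γ, ∑ ρ' ∈ Γ, ‖∑ n ∈ Icc 1 ⌊X⌋₊, ((be n * trap X n : ℝ) : ℂ) *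
        (n : ℂ) ^ (-(ρ + (starRingEnd ℂ) ρ' - 1))‖ := by
  classical
  set S : ℂ → ℂ := fun ρ => ∑ n ∈ Ioc a b, ((be n * al n : ℝ) : ℂ) * (n : ℂ) ^ (-ρ) with hSdef
  set et : ℂ → ℂ := fun ρ => (starRingEnd ℂ) (S ρ) / ‖S ρ‖ with het
  set T : ℕ → ℂ := fun n => ∑ ρ ∈ Γ, et ρ * (n : ℂ) ^ (-ρ) with hT
  have het1 : ∀ ρ, ‖et ρ‖ ≤ 1 := by
    intro ρ
    simp only [het, norm_div, RCLike.norm_conj, Complex.norm_real, norm_norm]
    exact div_self_le_one _
  have hetS : ∀ ρ, et ρ * S ρ = ‖S ρ‖ := by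
    intro ρ
    simp only [het]
    rcases eq_or_ne (‖S ρ‖) 0 with h | h
    · rw [h]; simp
    · rw [div_mul_eq_mul_div, div_eq_iff (by exact_mod_cast h), mul_comm, Complex.mul_conj,
        Complex.normSq_eq_norm_sq]
      push_cast; ring
  -- first step
  have h1 : (Γ.card : ℝ) / 2 ≤ ∑ n ∈ Ioc a b, |be n * al n| * ‖T n‖ := by
    have e1 : (Γ.card : ℝ) / 2 ≤ ∑ ρ ∈ Γ, ‖S ρ‖ := by
      calc (Γ.card : ℝ) / 2 = ∑ ρ ∈ Γ, (1 / 2 : ℝ) := by
            rw [Finset.sum_const, nsmul_eq_mul]; ring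
        _ ≤ _ := Finset.sum_le_sum fun ρ hρ => hS ρ hρ
    have e2 : ((∑ ρ ∈ Γ, ‖S ρ‖ : ℝ) : ℂ) = ∑ n ∈ Ioc a b, ((be n * al n : ℝ) : ℂ) * T n := by
      push_cast
      calc ∑ ρ ∈ Γ, ((‖S ρ‖ : ℝ) : ℂ) = ∑ ρ ∈ Γ, et ρ * S ρ :=
            Finset.sum_congr rfl fun ρ _ => (hetS ρ).symm
        _ = ∑ ρ ∈ Γ, ∑ n ∈ Ioc a b, ((be n * al n : ℝ) : ℂ) * (et ρ * (n : ℂ) ^ (-ρ)) := by
            refine Finset.sum_congr rfl fun ρ _ => ?_
            simp only [hSdef]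
            rw [Finset.mul_sum]
            refine Finset.sum_congr rfl fun n _ => ?_
            ring
        _ = ∑ n ∈ Ioc a b, ∑ ρ ∈ Γ, ((be n * al n : ℝ) : ℂ) * (et ρ * (n : ℂ) ^ (-ρ)) :=
            Finset.sum_comm
        _ = _ := by
            refine Finset.sum_congr rfl fun n _ => ?_
            rw [← Finset.mul_sum]
            push_cast
            rfl
    have e3 : ∑ ρ ∈ Γ, ‖S ρ‖ = ‖((∑ ρ ∈ Γ, ‖S ρ‖ : ℝ) : ℂ)‖ := by
      rw [Complex.norm_real, Real.norm_eq_abs, abs_of_nonneg]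
      exact Finset.sum_nonneg fun _ _ => norm_nonneg _
    rw [e2] at e3
    rw [e3] at e1
    refine e1.trans ((norm_sum_le _ _).trans (le_of_eq ?_))
    refine Finset.sum_congr rfl fun n _ => ?_
    rw [norm_mul, Complex.norm_real, Real.norm_eq_abs]
  have hpos : ∀ n ∈ Ioc a b, 0 < n := fun n hn => by
    rw [Finset.mem_Ioc] at hn; omega
  -- Cauchy-Schwarz
  have h2 : (∑ n ∈ Ioc a b, |be n * al n| * ‖T n‖) ^ 2 ≤
      (∑ n ∈ Ioc a b, be n * al n ^ 2 / n) * ∑ n ∈ Ioc a b, be n * n * ‖T n‖ ^ 2 := by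
    apply Finset.sum_sq_le_sum_mul_sum_of_sq_le_mul
    · intro n hn
      have := hbe n (hpos n hn)
      positivity
    · intro n hn
      have := hbe n (hpos n hn)
      positivity
    · intro n hn
      have h0 : (n : ℝ) ≠ 0 := by
        have := hpos n hn
        positivity
      apply le_of_eq
      rw [mul_pow, sq_abs]
      field_simp
  -- majorant
  have h3 : ∑ n ∈ Ioc a b, be n * n * ‖T n‖ ^ 2 ≤
      ∑ n ∈ Icc 1 ⌊X⌋₊, be n * trap X n * (n * ‖T n‖ ^ 2) := by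
    calc ∑ n ∈ Ioc a b, be n * n * ‖T n‖ ^ 2 =
        ∑ n ∈ Ioc a b, be n * trap X n * (n * ‖T n‖ ^ 2) := by
          refine Finset.sum_congr rfl fun n hn => ?_
          rw [htrap n hn]; ring
      _ ≤ _ := by
          apply Finset.sum_le_sum_of_subset_of_nonneg
          · intro n hn
            rw [Finset.mem_Ioc] at hn
            rw [Finset.mem_Icc]
            omega
          · intro n hn _
            rw [Finset.mem_Icc] at hn
            have := hbe n (by omega)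
            have h5 := trap_nonneg X n
            positivity
  -- expansion
  have h4 : ((∑ n ∈ Icc 1 ⌊X⌋₊, be n * trap X n * (n * ‖T n‖ ^ 2) : ℝ) : ℂ) =
      ∑ ρ ∈ Γ, ∑ ρ' ∈ Γ, et ρ * (starRingEnd ℂ) (et ρ') *
        ∑ n ∈ Icc 1 ⌊X⌋₊, ((be n * trap X n : ℝ) : ℂ) *
        (n : ℂ) ^ (-(ρ + (starRingEnd ℂ) ρ' - 1)) := by
    have e1 : ∀ n ∈ Icc 1 ⌊X⌋₊, ((n * ‖T n‖ ^ 2 : ℝ) : ℂ) =
        ∑ ρ ∈ Γ, ∑ ρ' ∈ Γ, et ρ * (starRingEnd ℂ) (et ρ') *
          (n : ℂ) ^ (-(ρ + (starRingEnd ℂ) ρ' - 1)) := by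
      intro n hn
      rw [Finset.mem_Icc] at hn
      have hn0 : (n : ℂ) ≠ 0 := by
        have : n ≠ 0 := by omega
        exact_mod_cast this
      have e2 : ((‖T n‖ ^ 2 : ℝ) : ℂ) = T n * (starRingEnd ℂ) (T n) := by
        rw [Complex.mul_conj, Complex.normSq_eq_norm_sq]
      have e3 : (starRingEnd ℂ) (T n) = ∑ ρ' ∈ Γ, (starRingEnd ℂ) (et ρ') *
          (n : ℂ) ^ (-(starRingEnd ℂ) ρ') := by
        simp only [hT, map_sum, map_mul]
        refine Finset.sum_congr rfl fun ρ _ => ?_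
        congr 1
        have h6 : ((n : ℕ) : ℂ) = (((n : ℕ) : ℝ) : ℂ) := by push_cast; rfl
        rw [← map_neg]
        have h7 := Complex.cpow_conj (n : ℂ) (-ρ) (by
          rw [Complex.natCast_arg]
          exact Real.pi_pos.ne)
        rw [Complex.conj_natCast] at h7
        rw [h7]
      push_cast
      have e4 : ((‖T n‖ : ℝ) : ℂ) ^ 2 = T n * (starRingEnd ℂ) (T n) := by
        rw [← e2]; push_cast; rfl
      rw [e4, e3]
      simp only [hT]
      rw [Finset.sum_mul_sum, Finset.mul_sum]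
      refine Finset.sum_congr rfl fun ρ _ => ?_
      rw [Finset.mul_sum]
      refine Finset.sum_congr rfl fun ρ' _ => ?_
      have e5 : (n : ℂ) ^ (-(ρ + (starRingEnd ℂ) ρ' - 1)) =
          (n : ℂ) * (n : ℂ) ^ (-ρ) * (n : ℂ) ^ (-(starRingEnd ℂ) ρ') := by
        have : -(ρ + (starRingEnd ℂ) ρ' - 1) = 1 + -ρ + -(starRingEnd ℂ) ρ' := by ring
        rw [this, Complex.cpow_add _ _ hn0, Complex.cpow_add _ _ hn0, Complex.cpow_one]
      rw [e5]
      ring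
    calc ((∑ n ∈ Icc 1 ⌊X⌋₊, be n * trap X n * (n * ‖T n‖ ^ 2) : ℝ) : ℂ) =
        ∑ n ∈ Icc 1 ⌊X⌋₊, ((be n * trap X n : ℝ) : ℂ) * ((n * ‖T n‖ ^ 2 : ℝ) : ℂ) := by
          push_cast
          rfl
      _ = ∑ n ∈ Icc 1 ⌊X⌋₊, ∑ ρ ∈ Γ, ∑ ρ' ∈ Γ, ((be n * trap X n : ℝ) : ℂ) *
            (et ρ * (starRingEnd ℂ) (et ρ') * (n : ℂ) ^ (-(ρ + (starRingEnd ℂ) ρ' - 1))) := by
          refine Finset.sum_congr rfl fun n hn => ?_
          rw [e1 n hn, Finset.mul_sum]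
          refine Finset.sum_congr rfl fun ρ _ => ?_
          rw [Finset.mul_sum]
      _ = _ := by
          rw [Finset.sum_comm]
          refine Finset.sum_congr rfl fun ρ _ => ?_
          rw [Finset.sum_comm]
          refine Finset.sum_congr rfl fun ρ' _ => ?_
          rw [Finset.mul_sum]
          refine Finset.sum_congr rfl fun n _ => ?_
          ring
  have h5 : ∑ n ∈ Icc 1 ⌊X⌋₊, be n * trap X n * (n * ‖T n‖ ^ 2) ≤
      ∑ ρ ∈ Γ, ∑ ρ' ∈ Γ, ‖∑ n ∈ Icc 1 ⌊X⌋₊, ((be n * trap X n : ℝ) : ℂ) *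
        (n : ℂ) ^ (-(ρ + (starRingEnd ℂ) ρ' - 1))‖ := by
    have e0 : ∑ n ∈ Icc 1 ⌊X⌋₊, be n * trap X n * (n * ‖T n‖ ^ 2) ≤
        ‖((∑ n ∈ Icc 1 ⌊X⌋₊, be n * trap X n * (n * ‖T n‖ ^ 2) : ℝ) : ℂ)‖ := by
      rw [Complex.norm_real]
      exact Real.le_norm_self _
    rw [h4] at e0
    refine e0.trans ((norm_sum_le _ _).trans (Finset.sum_le_sum fun ρ _ => ?_))
    refine (norm_sum_le _ _).trans (Finset.sum_le_sum fun ρ' _ => ?_)
    rw [norm_mul, norm_mul, RCLike.norm_conj]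
    have h6 := het1 ρ
    have h7 := het1 ρ'
    calc ‖et ρ‖ * ‖et ρ'‖ * _ ≤ 1 * 1 * _ := by gcongr
      _ = _ := by ring
  have hf0 : 0 ≤ ∑ n ∈ Ioc a b, be n * al n ^ 2 / n := by
    apply Finset.sum_nonneg
    intro n hn
    have := hbe n (hpos n hn)
    positivity
  calc ((Γ.card : ℝ) / 2) ^ 2 ≤ (∑ n ∈ Ioc a b, |be n * al n| * ‖T n‖) ^ 2 := by
        gcongr
    _ ≤ _ := h2
    _ ≤ _ := mul_le_mul_of_nonneg_left (h3.trans h5) hf0

lemma trap_le_one (X y : ℝ) : trap X y ≤ 1 :=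
  max_le (by norm_num) (min_le_left _ _)

lemma trap_eq_zero {X y : ℝ} (hX : 1 < X) (h : X ^ (1 / 4 : ℝ) ≤ y) : trap X y = 0 := by
  have hL : 0 < Real.log X := Real.log_pos hX
  have hX0 : 0 < X := by linarith
  have e1 : 1 / 4 * Real.log X ≤ Real.log y := by
    rw [← Real.log_rpow hX0]
    exact Real.log_le_log (Real.rpow_pos_of_pos hX0 _) h
  have e3 : 1 / 4 ≤ Real.log y / Real.log X := by
    rw [le_div_iff₀ hL]; exact e1
  unfold trap
  apply max_eq_left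
  refine (min_le_right _ _).trans ((min_le_right _ _).trans ?_)
  linarith

lemma trap_mul_le {X y x : ℝ} (hX : 1 < X) (hy : 1 ≤ y) (hx : 0 ≤ x) :
    trap X y * y ^ (2 * x) ≤ X ^ (x / 2) := by
  have hX0 : 0 < X := by linarith
  rcases le_total (X ^ (1 / 4 : ℝ)) y with h | h
  · rw [trap_eq_zero hX h, zero_mul]
    exact (Real.rpow_pos_of_pos hX0 _).le
  · calc trap X y * y ^ (2 * x) ≤ 1 * (X ^ (1 / 4 : ℝ)) ^ (2 * x) := by
          apply mul_le_mul (trap_le_one _ _) _ (Real.rpow_nonneg (by linarith) _) (by norm_num)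
          exact Real.rpow_le_rpow (by linarith) h (by linarith)
      _ = X ^ (x / 2) := by
          rw [one_mul, ← Real.rpow_mul hX0.le]
          congr 1
          ring

lemma exists_small (A B c : ℝ) (hc : 0 < c) : ∃ X0 : ℝ, 1 < X0 ∧ ∀ X : ℝ, X0 ≤ X →
    B * (A * Real.log X) ^ 4 * X ^ (-c) ≤ 1 / 8 := by
  have h1 : Filter.Tendsto (fun X : ℝ => Real.log X ^ (4 : ℝ) / X ^ c) Filter.atTop (nhds 0) :=
    (isLittleO_log_rpow_rpow_atTop (4 : ℝ) hc).tendsto_div_nhds_zero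
  have h2 : Filter.Tendsto (fun X : ℝ => (B * A ^ 4) * (Real.log X ^ (4 : ℝ) / X ^ c))
      Filter.atTop (nhds ((B * A ^ 4) * 0)) := h1.const_mul _
  rw [mul_zero] at h2
  have h3 := h2.eventually (gt_mem_nhds (show (0 : ℝ) < 1 / 8 by norm_num))
  obtain ⟨X0, hX0⟩ := (h3.and (Filter.eventually_gt_atTop 1)).exists_forall_of_atTop
  refine ⟨max X0 2, lt_max_of_lt_right (by norm_num), fun X hX => ?_⟩
  have h4 := hX0 X (le_trans (le_max_left _ _) hX)
  have hXp : 0 < X := by linarith [h4.2]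
  have h5 := h4.1
  rw [show (4 : ℝ) = ((4 : ℕ) : ℝ) by norm_num, Real.rpow_natCast] at h5
  rw [Real.rpow_neg hXp.le]
  calc B * (A * Real.log X) ^ 4 * (X ^ c)⁻¹ = (B * A ^ 4) * (Real.log X ^ 4 / X ^ c) := by ring
    _ ≤ _ := h5.le

/-- N12 -/
theorem density (h1 : SieveWeights) (h4 : FirstFactor) (h7 : Detect) (h10 : KerBound)
    (h11 : Spaced) : Density := by
  classical
  obtain ⟨K, C, hK, hC, hw⟩ := h1
  obtain ⟨C4, hC4, h4'⟩ := h4 K C hK hC
  obtain ⟨ε7, X7, hε7, h7'⟩ := h7 K C hK hC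
  obtain ⟨c1, ε10, C10, X10, hc1, hε10, hC10, h10'⟩ := h10 K C hK hC
  set A : ℝ := 100 * K with hA
  have hA100 : 100 ≤ A := by rw [hA]; linarith
  have hA0 : 0 < A := by linarith
  obtain ⟨X12, hX12, hsm⟩ := exists_small A C4 c1 hc1
  set ε : ℝ := min (min ε7 (ε10 / 2)) (1 / A) with hε
  have hε0 : 0 < ε := by
    rw [hε]
    exact lt_min (lt_min hε7 (by linarith)) (by positivity)
  have hεa : ε ≤ ε7 := (min_le_left _ _).trans (min_le_left _ _)
  have hεb : ε ≤ ε10 / 2 := (min_le_left _ _).trans (min_le_right _ _)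
  have hεc : ε ≤ 1 / A := min_le_right _ _
  have hε1 : ε ≤ 1 := by
    refine hεc.trans ?_
    rw [div_le_one hA0]; linarith
  refine ⟨ε, 8 * C4 * A ^ 5 * (C4 + 4 * C10), max (max X7 X10) (max X12 (2 ^ (100 : ℝ))), hε0,
    by positivity, ?_⟩
  intro X hX c hc1' hcε Γ hΓ hsp
  have hXa : X7 ≤ X := (le_max_left _ _).trans ((le_max_left _ _).trans hX)
  have hXb : X10 ≤ X := (le_max_right _ _).trans ((le_max_left _ _).trans hX)
  have hXc : X12 ≤ X := (le_max_left _ _).trans ((le_max_right _ _).trans hX)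
  have hXd : (2 : ℝ) ^ (100 : ℝ) ≤ X := (le_max_right _ _).trans ((le_max_right _ _).trans hX)
  have hX1 : 1 < X := hX12.trans_le hXc
  have hX0 : 0 < X := by linarith
  set L : ℝ := Real.log X with hL
  have hL0 : 0 < L := Real.log_pos hX1
  have hcp : 0 < c := by linarith
  set w : ℝ := Real.exp (L / (A * c)) with hwdef
  have hw0 : 0 < w := Real.exp_pos _
  have hlogw : Real.log w = L / (A * c) := Real.log_exp _
  have hAc : 0 < A * c := by positivity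
  have hLAc : 1 ≤ L / (A * c) := by
    rw [le_div_iff₀ hAc, one_mul]
    have e1 : c ≤ 1 / A * L := hcε.trans (mul_le_mul_of_nonneg_right hεc hL0.le)
    calc A * c ≤ A * (1 / A * L) := mul_le_mul_of_nonneg_left e1 hA0.le
      _ = L := by field_simp
  have hw2 : 2 ≤ w := by
    have := Real.add_one_le_exp (L / (A * c))
    linarith
  have hwK : w ^ K ≤ X ^ (1 / 100 : ℝ) := by
    rw [Real.rpow_def_of_pos hw0, Real.rpow_def_of_pos hX0, hlogw]
    apply Real.exp_le_exp.mpr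
    rw [← hL, div_mul_eq_mul_div, div_le_iff₀ hAc]
    have : L * (1 / 100) * (A * c) = (L * K) * c := by rw [hA]; ring
    rw [this]
    have e2 : 0 ≤ L * K := by positivity
    nlinarith
  have hwX : w ≤ X := by
    have e1 : w = w ^ (1 : ℝ) := (Real.rpow_one w).symm
    rw [e1]
    calc w ^ (1 : ℝ) ≤ w ^ K := Real.rpow_le_rpow_of_exponent_le (by linarith) hK
      _ ≤ X ^ (1 / 100 : ℝ) := hwK
      _ ≤ X ^ (1 : ℝ) := Real.rpow_le_rpow_of_exponent_le hX1.le (by norm_num)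
      _ = X := Real.rpow_one X
  have hwY : w ≤ X ^ (1 / 5 : ℝ) := by
    have e1 : w = w ^ (1 : ℝ) := (Real.rpow_one w).symm
    rw [e1]
    calc w ^ (1 : ℝ) ≤ w ^ K := Real.rpow_le_rpow_of_exponent_le (by linarith) hK
      _ ≤ X ^ (1 / 100 : ℝ) := hwK
      _ ≤ X ^ (1 / 5 : ℝ) := Real.rpow_le_rpow_of_exponent_le hX1.le (by norm_num)
  obtain ⟨lam, hlam⟩ := hw w hw2
  -- facts on the zeros
  have hre : ∀ ρ ∈ Γ, ρ.re < 1 := by
    intro ρ hρ
    by_contra h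
    push Not at h
    exact riemannZeta_ne_zero_of_one_le_re h (hΓ ρ hρ).1
  have hx : ∀ ρ ∈ Γ, (1 - ρ.re) * L ≤ c := by
    intro ρ hρ
    have := (hΓ ρ hρ).2.1
    have e1 : 1 - ρ.re ≤ c / L := by linarith
    calc (1 - ρ.re) * L ≤ c / L * L := mul_le_mul_of_nonneg_right e1 hL0.le
      _ = c := by field_simp
  have hxε : ∀ ρ ∈ Γ, 1 - ρ.re ≤ ε := by
    intro ρ hρ
    have e1 : (1 - ρ.re) * L ≤ ε * L := (hx ρ hρ).trans hcε
    exact le_of_mul_le_mul_right e1 hL0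
  have hwx : ∀ ρ ∈ Γ, w ^ (1 - ρ.re) ≤ 11 / 10 := by
    intro ρ hρ
    rw [Real.rpow_def_of_pos hw0, hlogw]
    have e1 : L / (A * c) * (1 - ρ.re) ≤ 1 / 100 := by
      rw [div_mul_eq_mul_div, div_le_iff₀ hAc]
      have := hx ρ hρ
      nlinarith
    calc Real.exp (L / (A * c) * (1 - ρ.re)) ≤ Real.exp (1 / 100) := Real.exp_le_exp.mpr e1
      _ ≤ 11 / 10 := by
          have := Real.exp_bound' (x := 1 / 100) (by norm_num) (by norm_num) (n := 2) (by norm_num)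
          norm_num [Finset.sum_range_succ] at this
          linarith
  -- duality
  set a : ℕ := ⌊X ^ (1 / 20 : ℝ)⌋₊ with ha
  set b : ℕ := ⌊X ^ (1 / 5 : ℝ)⌋₊ with hb
  have hbX : b ≤ ⌊X⌋₊ := by
    apply Nat.floor_le_floor
    calc X ^ (1 / 5 : ℝ) ≤ X ^ (1 : ℝ) := Real.rpow_le_rpow_of_exponent_le hX1.le (by norm_num)
      _ = X := Real.rpow_one X
  have htrap : ∀ n ∈ Ioc a b, trap X n = 1 := by
    intro n hn
    rw [Finset.mem_Ioc] at hn
    apply trap_eq_one hX1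
    · exact (Nat.lt_of_floor_lt hn.1).le
    · exact (Nat.le_floor_iff (by positivity)).mp hn.2
  have hdual := dual_aux (be := bet lam) (al := alp w (X ^ (1 / 20 : ℝ))) (Γ := Γ) hlam.nonneg hbX
    htrap (fun ρ hρ => h7' X hXa w lam hw2 hwK hlam ρ (hΓ ρ hρ).1 (by linarith [hxε ρ hρ])
      (hwx ρ hρ) (hΓ ρ hρ).2.2.1 (hΓ ρ hρ).2.2.2)
  -- first factor
  have hD1 : 1 ≤ X ^ (1 / 20 : ℝ) := Real.one_le_rpow hX1.le (by norm_num)
  have hF : ∑ n ∈ Ioc a b, bet lam n * alp w (X ^ (1 / 20 : ℝ)) n ^ 2 / n ≤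
      C4 * (A * c) ^ 4 := by
    have e1 := (h4' w lam hw2 hlam (X ^ (1 / 20 : ℝ)) (X ^ (1 / 5 : ℝ)) hD1 hwY).2
    have e2 : ∑ n ∈ Ioc a b, bet lam n * alp w (X ^ (1 / 20 : ℝ)) n ^ 2 / n ≤
        ∑ n ∈ Icc 1 ⌊X ^ (1 / 5 : ℝ)⌋₊, bet lam n * alp w (X ^ (1 / 20 : ℝ)) n ^ 2 / n := by
      apply Finset.sum_le_sum_of_subset_of_nonneg
      · intro n hn
        rw [Finset.mem_Ioc] at hn
        rw [Finset.mem_Icc]
        omega
      · intro n hn _
        rw [Finset.mem_Icc] at hn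
        have := hlam.nonneg n (by omega)
        positivity
    refine e2.trans (e1.trans ?_)
    apply mul_le_mul_of_nonneg_left _ hC4.le
    apply pow_le_pow_left₀
    · rw [hlogw, Real.log_rpow hX0]
      positivity
    · rw [hlogw, Real.log_rpow hX0, ← hL]
      rw [div_le_iff₀ (by positivity)]
      have : A * c * (L / (A * c)) = L := by field_simp
      rw [this]
      linarith
  -- kernel, diagonal
  have hdiag : ∀ ρ ∈ Γ, ‖∑ n ∈ Icc 1 ⌊X⌋₊, ((bet lam n * trap X n : ℝ) : ℂ) *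
        (n : ℂ) ^ (-(ρ + (starRingEnd ℂ) ρ - 1))‖ ≤ C4 * (A * c) * Real.exp (c / 2) := by
    intro ρ hρ
    have e1 := (h4' w lam hw2 hlam 1 X le_rfl hwX).1
    refine (norm_sum_le _ _).trans ?_
    calc ∑ n ∈ Icc 1 ⌊X⌋₊, ‖((bet lam n * trap X n : ℝ) : ℂ) *
        (n : ℂ) ^ (-(ρ + (starRingEnd ℂ) ρ - 1))‖ ≤
        ∑ n ∈ Icc 1 ⌊X⌋₊, (bet lam n / n) * Real.exp (c / 2) := by
          apply Finset.sum_le_sum
          intro n hn
          rw [Finset.mem_Icc] at hn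
          have hn0 : (0 : ℝ) < n := by
            have : 0 < n := by omega
            exact_mod_cast this
          have hn1 : (1 : ℝ) ≤ n := by exact_mod_cast hn.1
          have hb0 := hlam.nonneg n (by omega)
          rw [norm_mul, Complex.norm_real, Real.norm_eq_abs,
            abs_of_nonneg (mul_nonneg hb0 (trap_nonneg _ _)),
            Complex.norm_natCast_cpow_of_pos (by omega)]
          have e2 : (-(ρ + (starRingEnd ℂ) ρ - 1)).re = 2 * (1 - ρ.re) + (-1) := by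
            simp; ring
          rw [e2, Real.rpow_add hn0, Real.rpow_neg_one]
          have e3 := trap_mul_le (X := X) (y := n) (x := 1 - ρ.re) hX1 hn1 (by linarith [hre ρ hρ])
          have e4 : X ^ ((1 - ρ.re) / 2) ≤ Real.exp (c / 2) := by
            rw [Real.rpow_def_of_pos hX0]
            apply Real.exp_le_exp.mpr
            have := hx ρ hρ
            rw [← hL]
            linarith
          calc bet lam n * trap X n * ((n : ℝ) ^ (2 * (1 - ρ.re)) * (n : ℝ)⁻¹) =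
              (bet lam n / n) * (trap X n * (n : ℝ) ^ (2 * (1 - ρ.re))) := by
                field_simp
            _ ≤ (bet lam n / n) * Real.exp (c / 2) := by
                apply mul_le_mul_of_nonneg_left (e3.trans e4)
                positivity
      _ = (∑ n ∈ Icc 1 ⌊X⌋₊, bet lam n / n) * Real.exp (c / 2) := by rw [Finset.sum_mul]
      _ ≤ C4 * (Real.log X / Real.log w) * Real.exp (c / 2) :=
          mul_le_mul_of_nonneg_right e1 (Real.exp_pos _).le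
      _ = _ := by
          rw [hlogw, ← hL]
          have : L / (L / (A * c)) = A * c := by field_simp
          rw [this]
  -- kernel, off the diagonal
  have hoff : ∀ ρ ∈ Γ, ∀ ρ' ∈ Γ.erase ρ, ‖∑ n ∈ Icc 1 ⌊X⌋₊, ((bet lam n * trap X n : ℝ) : ℂ) *
        (n : ℂ) ^ (-(ρ + (starRingEnd ℂ) ρ' - 1))‖ ≤
        C10 * Real.exp (c / 2) * (A * c / L ^ 2) * (1 / (ρ.im - ρ'.im) ^ 2) + X ^ (-c1) := by
    intro ρ hρ ρ' hρ'
    have hρ'2 := Finset.mem_of_mem_erase hρ'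
    have hne : ρ ≠ ρ' := (Finset.ne_of_mem_erase hρ').symm
    have him : (ρ + (starRingEnd ℂ) ρ' - 1).im = ρ.im - ρ'.im := by simp; ring
    have hree : (ρ + (starRingEnd ℂ) ρ' - 1).re = ρ.re + ρ'.re - 1 := by simp
    have hgap := hsp ρ hρ ρ' hρ'2 hne
    have hgap0 : 0 < |ρ.im - ρ'.im| := lt_of_lt_of_le (by positivity) hgap
    have e1 := h10' X hXb w lam hw2 hwK hlam (ρ + (starRingEnd ℂ) ρ' - 1)
      (by rw [hree]; linarith [hxε ρ hρ, hxε ρ' hρ'2])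
      (by rw [hree]; linarith [hre ρ hρ, hre ρ' hρ'2])
      (by rw [him]; exact abs_pos.mp hgap0)
      (by
        rw [him]
        have f1 := (hΓ ρ hρ).2.2.2
        have f2 := (hΓ ρ' hρ'2).2.2.2
        have f3 : |ρ.im - ρ'.im| ≤ |ρ.im| + |ρ'.im| := abs_sub _ _
        have f4 : X ^ (61 / 100 : ℝ) = X ^ (1 / 100 : ℝ) * X ^ (6 / 10 : ℝ) := by
          rw [← Real.rpow_add hX0]; norm_num
        have f5 : (2 : ℝ) ≤ X ^ (1 / 100 : ℝ) := by
          calc (2 : ℝ) = ((2 : ℝ) ^ (100 : ℝ)) ^ (1 / 100 : ℝ) := by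
                rw [← Real.rpow_mul (by norm_num)]; norm_num
            _ ≤ _ := Real.rpow_le_rpow (by positivity) hXd (by norm_num)
        have f6 : 0 < X ^ (6 / 10 : ℝ) := Real.rpow_pos_of_pos hX0 _
        rw [f4]
        nlinarith)
    unfold Ker at e1
    refine e1.trans ?_
    rw [him, hree]
    apply add_le_add_left
    have e2 : X ^ ((1 - (ρ.re + ρ'.re - 1)) / 4) ≤ Real.exp (c / 2) := by
      rw [Real.rpow_def_of_pos hX0]
      apply Real.exp_le_exp.mpr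
      have g1 := hx ρ hρ
      have g2 := hx ρ' hρ'2
      rw [← hL]
      linarith
    have hsq : 0 < (ρ.im - ρ'.im) ^ 2 := by
      have := abs_pos.mp hgap0
      positivity
    calc C10 * X ^ ((1 - (ρ.re + ρ'.re - 1)) / 4) / (Real.log w * Real.log X * (ρ.im - ρ'.im) ^ 2)
        ≤ C10 * Real.exp (c / 2) / (Real.log w * Real.log X * (ρ.im - ρ'.im) ^ 2) := by
          rw [hlogw, ← hL]
          gcongr
      _ = _ := by
          rw [hlogw, ← hL]
          field_simp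
  -- assembly
  set n : ℝ := (Γ.card : ℝ) with hn
  have hn0 : 0 ≤ n := by positivity
  have hG : ∑ ρ ∈ Γ, ∑ ρ' ∈ Γ, ‖∑ n ∈ Icc 1 ⌊X⌋₊, ((bet lam n * trap X n : ℝ) : ℂ) *
        (n : ℂ) ^ (-(ρ + (starRingEnd ℂ) ρ' - 1))‖ ≤
      n * ((C4 + 4 * C10) * (A * c) * Real.exp (c / 2)) + n ^ 2 * X ^ (-c1) := by
    have e1 : ∀ ρ ∈ Γ, ∑ ρ' ∈ Γ, ‖∑ n ∈ Icc 1 ⌊X⌋₊, ((bet lam n * trap X n : ℝ) : ℂ) *
        (n : ℂ) ^ (-(ρ + (starRingEnd ℂ) ρ' - 1))‖ ≤
        (C4 + 4 * C10) * (A * c) * Real.exp (c / 2) + n * X ^ (-c1) := by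
      intro ρ hρ
      rw [← Finset.add_sum_erase Γ _ hρ]
      have e2 := h11 (1 / L) (by positivity) Γ hsp ρ hρ
      have e3 : (4 : ℝ) / (1 / L) ^ 2 = 4 * L ^ 2 := by field_simp
      rw [e3] at e2
      have e4 : ∑ ρ' ∈ Γ.erase ρ, ‖∑ n ∈ Icc 1 ⌊X⌋₊, ((bet lam n * trap X n : ℝ) : ℂ) *
          (n : ℂ) ^ (-(ρ + (starRingEnd ℂ) ρ' - 1))‖ ≤
          C10 * Real.exp (c / 2) * (A * c / L ^ 2) * (4 * L ^ 2) + n * X ^ (-c1) := by
        refine (Finset.sum_le_sum (hoff ρ hρ)).trans ?_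
        rw [Finset.sum_add_distrib, ← Finset.mul_sum, Finset.sum_const, nsmul_eq_mul]
        apply add_le_add
        · apply mul_le_mul_of_nonneg_left e2
          positivity
        · apply mul_le_mul_of_nonneg_right _ (Real.rpow_nonneg hX0.le _)
          rw [hn]
          exact_mod_cast Finset.card_le_card (Finset.erase_subset _ _)
      have e5 : C10 * Real.exp (c / 2) * (A * c / L ^ 2) * (4 * L ^ 2) =
          4 * C10 * (A * c) * Real.exp (c / 2) := by field_simp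
      rw [e5] at e4
      have e6 := hdiag ρ hρ
      calc _ ≤ C4 * (A * c) * Real.exp (c / 2) + (4 * C10 * (A * c) * Real.exp (c / 2) +
            n * X ^ (-c1)) := add_le_add e6 e4
        _ = _ := by ring
    refine (Finset.sum_le_sum e1).trans (le_of_eq ?_)
    rw [Finset.sum_const, nsmul_eq_mul, ← hn]
    ring
  have hfin : (n / 2) ^ 2 ≤ C4 * (A * c) ^ 4 *
      (n * ((C4 + 4 * C10) * (A * c) * Real.exp (c / 2)) + n ^ 2 * X ^ (-c1)) := by
    refine hdual.trans ?_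
    apply mul_le_mul hF hG
    · exact Finset.sum_nonneg fun _ _ => Finset.sum_nonneg fun _ _ => norm_nonneg _
    · positivity
  have hsm' : C4 * (A * c) ^ 4 * X ^ (-c1) ≤ 1 / 8 := by
    refine le_trans ?_ (hsm X hXc)
    apply mul_le_mul_of_nonneg_right _ (Real.rpow_nonneg hX0.le _)
    apply mul_le_mul_of_nonneg_left _ hC4.le
    apply pow_le_pow_left₀ hAc.le
    apply mul_le_mul_of_nonneg_left _ hA0.le
    calc c ≤ ε * L := hcε
      _ ≤ 1 * L := mul_le_mul_of_nonneg_right hε1 hL0.le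
      _ = Real.log X := one_mul _
  have hfin2 : n ^ 2 / 4 ≤ n * (C4 * A ^ 5 * (C4 + 4 * C10) * c ^ 5 * Real.exp (c / 2)) + n ^ 2 / 8 := by
    have e1 : C4 * (A * c) ^ 4 *
      (n * ((C4 + 4 * C10) * (A * c) * Real.exp (c / 2)) + n ^ 2 * X ^ (-c1)) =
      n * (C4 * A ^ 5 * (C4 + 4 * C10) * c ^ 5 * Real.exp (c / 2)) +
        n ^ 2 * (C4 * (A * c) ^ 4 * X ^ (-c1)) := by ring
    rw [e1] at hfin
    have e2 : n ^ 2 * (C4 * (A * c) ^ 4 * X ^ (-c1)) ≤ n ^ 2 * (1 / 8) :=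
      mul_le_mul_of_nonneg_left hsm' (by positivity)
    nlinarith
  rcases hn0.eq_or_lt with h0 | h0
  · rw [← h0]; positivity
  · have e3 : n * n ≤ n * (8 * (C4 * A ^ 5 * (C4 + 4 * C10) * c ^ 5 * Real.exp (c / 2))) := by
      nlinarith
    have e4 := le_of_mul_le_mul_left e3 h0
    calc n ≤ 8 * (C4 * A ^ 5 * (C4 + 4 * C10) * c ^ 5 * Real.exp (c / 2)) := e4
      _ = _ := by ring

end Pool.Agent.Helper18.KSZ
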