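import Pool.Agent.Helper18.KSZ.NSpec

/-!
# N14: the zeros of one level
-/

set_option autoImplicit false

open Finset

namespace Pool.Agent.Helper18.KSZ

lemma mz_nonneg (ρ : ℂ) : 0 ≤ mz ρ := Nat.cast_nonneg _

/-- tails of `∑ k ^ 6 * exp (-k / 2)` -/
lemma tail_small (B η : ℝ) (_hB : 0 < B) (hη : 0 < η) : ∃ k0 : ℕ, ∀ t : Finset ℕ,
    (∀ k ∈ t, k0 ≤ k) → ∑ k ∈ t, B * ((k : ℝ) ^ 6 * Real.exp (-(1 / 2) * k)) ≤ η := by
  have hs : Summable (fun k : ℕ => B * ((k : ℝ) ^ 6 * Real.exp (-(1 / 2) * k))) := by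
    apply Summable.mul_left
    exact Real.summable_pow_mul_exp_neg_nat_mul 6 (by norm_num)
  obtain ⟨s, hs'⟩ := summable_iff_vanishing_norm.mp hs η hη
  refine ⟨s.sup id + 1, fun t ht => ?_⟩
  have h1 := hs' t (by
    rw [Finset.disjoint_left]
    intro k hk hk'
    have h2 := ht k hk
    have h3 : k ≤ s.sup id := Finset.le_sup (f := id) hk'
    omega)
  exact (Real.le_norm_self _).trans h1.le

/-- N14 -/
theorem oneLevel (h10 : InA10) (h : DensityM) : OneLevel := by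
  classical
  obtain ⟨ε1, C, X1, hε1, hC, hD⟩ := h
  refine ⟨ε1 / 2, by linarith, fun η hη => ?_⟩
  obtain ⟨k0, hk0⟩ := tail_small (Real.exp 1 * C) η (by positivity) hη
  obtain ⟨T0, hT0, hT⟩ := h10 (k0 + 1)
  -- thresholds
  have hev : ∀ᶠ X : ℝ in Filter.atTop, X1 ≤ X ∧ 1 < X ∧ T0 ≤ X ^ (3 / 10 : ℝ) ∧
      2 / ε1 ≤ Real.log X := by
    refine (Filter.eventually_ge_atTop X1).and ((Filter.eventually_gt_atTop 1).and
      (((tendsto_rpow_atTop (by norm_num : (0 : ℝ) < 3 / 10)).eventually_ge_atTop T0).and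
      (Real.tendsto_log_atTop.eventually_ge_atTop _)))
  obtain ⟨X0, hX0⟩ := hev.exists_forall_of_atTop
  refine ⟨X0, fun X hX Z hZ => ?_⟩
  obtain ⟨hXX1, hX1, hXT, hXL⟩ := hX0 X hX
  have hXpos : 0 < X := by linarith
  set L : ℝ := Real.log X with hL
  have hL0 : 0 < L := Real.log_pos hX1
  set N : ℕ := ⌊ε1 * L⌋₊ with hN
  have hre : ∀ ρ ∈ Z, ρ.re < 1 := by
    intro ρ hρ
    by_contra h
    push Not at h
    exact riemannZeta_ne_zero_of_one_le_re h (hZ ρ hρ).1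
  set kk : ℂ → ℕ := fun ρ => ⌈(1 - ρ.re) * L⌉₊ with hkk
  have hkk0 : ∀ ρ ∈ Z, k0 ≤ kk ρ := by
    intro ρ hρ
    obtain ⟨h1, h2, h3, h4⟩ := hZ ρ hρ
    have h5 := hT ρ h1 (hXT.trans h3)
    have h6 : 0 < Real.log |ρ.im| := Real.log_pos (by linarith [hXT.trans h3])
    have h7 : Real.log |ρ.im| ≤ L := by
      have h8 : |ρ.im| ≤ X := by
        refine h4.trans ?_
        calc X ^ (6 / 10 : ℝ) ≤ X ^ (1 : ℝ) :=
              Real.rpow_le_rpow_of_exponent_le hX1.le (by norm_num)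
          _ = X := Real.rpow_one X
      exact Real.log_le_log (by linarith [hXT.trans h3]) h8
    have h9 : ((k0 : ℝ) + 1) / Real.log |ρ.im| ≤ 1 - ρ.re := by linarith
    have h10' : ((k0 : ℝ) + 1) ≤ (1 - ρ.re) * L := by
      calc ((k0 : ℝ) + 1) ≤ (1 - ρ.re) * Real.log |ρ.im| := by
            rwa [div_le_iff₀ h6] at h9
        _ ≤ (1 - ρ.re) * L := mul_le_mul_of_nonneg_left h7 (by linarith [hre ρ hρ])
    have h11 : (k0 : ℝ) ≤ kk ρ := by
      have := Nat.le_ceil ((1 - ρ.re) * L)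
      simp only [hkk]
      linarith
    exact_mod_cast h11
  have hkk1 : ∀ ρ ∈ Z, 1 ≤ kk ρ := by
    intro ρ hρ
    have : 0 < (1 - ρ.re) * L := mul_pos (by linarith [hre ρ hρ]) hL0
    exact Nat.ceil_pos.mpr this
  have hkkN : ∀ ρ ∈ Z, kk ρ ≤ N := by
    intro ρ hρ
    rw [hN]
    apply Nat.le_floor
    have h1 : (1 - ρ.re) * L ≤ ε1 / 2 * L :=
      mul_le_mul_of_nonneg_right (by linarith [(hZ ρ hρ).2.1]) hL0.le
    have h2 : (kk ρ : ℝ) < (1 - ρ.re) * L + 1 :=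
      Nat.ceil_lt_add_one (mul_nonneg (by linarith [hre ρ hρ]) hL0.le)
    have h3 : 2 ≤ ε1 * L := by
      have := (div_le_iff₀ hε1).mp hXL
      linarith
    linarith
  -- fiberwise
  set t : Finset ℕ := (Finset.range (N + 1)).filter (fun k => k0 ≤ k ∧ 1 ≤ k) with ht
  have hmaps : ∀ ρ ∈ Z, kk ρ ∈ t := by
    intro ρ hρ
    rw [ht, Finset.mem_filter, Finset.mem_range]
    exact ⟨Nat.lt_succ_of_le (hkkN ρ hρ), hkk0 ρ hρ, hkk1 ρ hρ⟩
  rw [← Finset.sum_fiberwise_of_maps_to hmaps]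
  refine le_trans ?_ (hk0 t (fun k hk => by
    rw [ht, Finset.mem_filter] at hk
    exact hk.2.1))
  apply Finset.sum_le_sum
  intro k hk
  rw [ht, Finset.mem_filter, Finset.mem_range] at hk
  have hkN : (k : ℝ) ≤ ε1 * L := by
    have h1 : k ≤ N := by omega
    exact (Nat.le_floor_iff (by positivity)).mp h1
  have hk1 : (1 : ℝ) ≤ k := by exact_mod_cast hk.2.2
  have h1 : ∀ ρ ∈ Z.filter (fun ρ => kk ρ = k), mz ρ * X ^ (ρ.re - 1) ≤
      mz ρ * Real.exp (1 - k) := by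
    intro ρ hρ
    rw [Finset.mem_filter] at hρ
    apply mul_le_mul_of_nonneg_left _ (mz_nonneg ρ)
    rw [Real.rpow_def_of_pos hXpos]
    apply Real.exp_le_exp.mpr
    have h2 : (kk ρ : ℝ) < (1 - ρ.re) * L + 1 :=
      Nat.ceil_lt_add_one (mul_nonneg (by linarith [hre ρ hρ.1]) hL0.le)
    rw [hρ.2] at h2
    rw [← hL]
    linarith
  refine (Finset.sum_le_sum h1).trans ?_
  rw [← Finset.sum_mul]
  have h3 := hD X hXX1 k hk1 hkN (Z.filter (fun ρ => kk ρ = k)) (by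
    intro ρ hρ
    rw [Finset.mem_filter] at hρ
    refine ⟨(hZ ρ hρ.1).1, ?_, (hZ ρ hρ.1).2.2.1, (hZ ρ hρ.1).2.2.2⟩
    have h2 : (1 - ρ.re) * L ≤ kk ρ := Nat.le_ceil _
    rw [hρ.2] at h2
    have h4 : 1 - ρ.re ≤ k / L := by
      rw [le_div_iff₀ hL0]; exact h2
    rw [← hL]
    linarith)
  refine (mul_le_mul_of_nonneg_right h3 (Real.exp_pos _).le).trans (le_of_eq ?_)
  have h5 : Real.exp (k / 2 : ℝ) * Real.exp (1 - k) = Real.exp 1 * Real.exp (-(1 / 2) * k) := by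
    rw [← Real.exp_add, ← Real.exp_add]
    congr 1
    ring
  calc C * (k : ℝ) ^ 6 * Real.exp (k / 2) * Real.exp (1 - k) =
      C * (k : ℝ) ^ 6 * (Real.exp (k / 2 : ℝ) * Real.exp (1 - k)) := by ring
    _ = _ := by rw [h5]; ring

end Pool.Agent.Helper18.KSZ
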