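import Pool.Agent.Helper18.KSZ.NSpec
import Pool.Agent.Helper18.KSZ.N1
import Pool.Agent.Helper18.KSZ.N11
import Pool.Agent.Helper18.KSZ.N12
import Pool.Agent.Helper18.KSZ.N14
import Pool.Agent.Helper85.KSZ.N1a
import Pool.Agent.Helper26.KSZ.N1b
import Pool.Agent.Helper91.KSZ.N1c
import Pool.Agent.Helper36.KSZ.N2
import Pool.Agent.Helper36.KSZ.N3
import Pool.Agent.Helper36.KSZ.N4
import Pool.Agent.Helper94.KSZ.N5
import Pool.Agent.Helper73.KSZ.N6
import Pool.Agent.Helper48.KSZ.N7
import Pool.Agent.Helper7.KSZ.N8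
import Pool.Agent.Helper7.KSZ.N9
import Pool.Agent.Helper7.KSZ.N10
import Pool.Agent.Helper94.KSZ.N13
import Pool.Agent.Helper71.KSZ.N15
import Pool.Agent.Helper67.KSZ.ExpSum2
import Pool.Agent.Helper33.KSZ.ZetaNear

/-!
# Theorem N (zeros of zeta near the line 1), assembly; the zero-free region (A10) is a hypothesis
-/

set_option autoImplicit false

namespace Pool.Agent.Helper18.KSZ

theorem inA3 : InA3 := fun A hA => Helper67.KSZ.A3 A hA

theorem expSum : ExpSum := Helper94.KSZ.expSum inA3

theorem sieveW : SieveWeights :=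
  sieveWeights Helper85.KSZ.lamBasic (Helper26.KSZ.lamSmall Helper85.KSZ.lamBasic)
    (Helper91.KSZ.lamMean Helper85.KSZ.lamBasic)

theorem firstF : FirstFactor := Helper36.KSZ.firstFactor Helper36.KSZ.roughSums

theorem zeroSum : ZeroSum := Helper73.KSZ.zeroSum expSum

theorem detect : Detect := Helper48.KSZ.detect Helper36.KSZ.coeffs zeroSum

theorem kerBound : KerBound := Helper7.KSZ.kerBound Helper7.KSZ.innerSmall
  (Helper7.KSZ.innerLarge expSum)

theorem density' : Density := density sieveW firstF detect kerBound spaced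

theorem densityM' : DensityM := Helper94.KSZ.densityM Helper33.KSZ.inA9 density'

/-- Theorem N from the zero-free region -/
theorem theoremN_of (h10 : InA10) : TheoremN :=
  Helper71.KSZ.theoremN h10 (oneLevel h10 densityM')

end Pool.Agent.Helper18.KSZ
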