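import Pool.Agent.Helper18.KSZ.TheoremN
import Pool.Agent.Helper71.KSZ.N15

/-!
# Theorem N for heights up to `X ^ τ`, every `τ < 6/5`

`densityM'` gives `N(c) ≤ C c^6 e^(c/2)` for the zeros with `x ≤ c / log X`, `|γ| ≤ X^(6/10)`; so
`∑ X^(θ (β-1))` is small for every `θ > 1/2`, and `X = X₁^θ`, `X₁^(6/10) = X^(6/(10 θ))`.
-/

set_option autoImplicit false

open Finset Filter Topology

namespace Pool.Agent.Helper18.KSZ

/-- tails of `∑ k ^ 6 * exp (-a k)` -/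
lemma tail_smallG (a B η : ℝ) (ha : 0 < a) (hη : 0 < η) : ∃ k0 : ℕ, ∀ t : Finset ℕ,
    (∀ k ∈ t, k0 ≤ k) → ∑ k ∈ t, B * ((k : ℝ) ^ 6 * Real.exp (-a * k)) ≤ η := by
  have hs : Summable (fun k : ℕ => B * ((k : ℝ) ^ 6 * Real.exp (-a * k))) := by
    apply Summable.mul_left
    exact Real.summable_pow_mul_exp_neg_nat_mul 6 ha
  obtain ⟨s, hs'⟩ := summable_iff_vanishing_norm.mp hs η hη
  refine ⟨s.sup id + 1, fun t ht => ?_⟩
  have h1 := hs' t (by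
    rw [Finset.disjoint_left]
    intro k hk hk'
    have h2 := ht k hk
    have h3 : k ≤ s.sup id := Finset.le_sup (f := id) hk'
    omega)
  exact (Real.le_norm_self _).trans h1.le

/-- one level, exponent `θ > 1/2` -/
theorem oneLevelG (h10 : InA10) (h : DensityM) (θ : ℝ) (hθ : 1 / 2 < θ) :
    ∃ ε : ℝ, 0 < ε ∧ ∀ η : ℝ, 0 < η → ∃ X0 : ℝ, ∀ X : ℝ, X0 ≤ X →
      ∀ Z : Finset ℂ, (∀ ρ ∈ Z, riemannZeta ρ = 0 ∧ 1 - ε ≤ ρ.re ∧ X ^ (3 / 10 : ℝ) ≤ |ρ.im| ∧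
        |ρ.im| ≤ X ^ (6 / 10 : ℝ)) →
      ∑ ρ ∈ Z, mz ρ * X ^ (θ * (ρ.re - 1)) ≤ η := by
  classical
  have hθ0 : 0 < θ := by linarith
  obtain ⟨ε1, C, X1, hε1, hC, hD⟩ := h
  refine ⟨ε1 / 2, by linarith, fun η hη => ?_⟩
  obtain ⟨k0, hk0⟩ := tail_smallG (θ - 1 / 2) (Real.exp θ * C) η (by linarith) hη
  obtain ⟨T0, hT0, hT⟩ := h10 (k0 + 1)
  -- thresholds
  have hev : ∀ᶠ X : ℝ in Filter.atTop, X1 ≤ X ∧ 1 < X ∧ T0 ≤ X ^ (3 / 10 : ℝ) ∧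
      2 / ε1 ≤ Real.log X := by
    refine (Filter.eventually_ge_atTop X1).and ((Filter.eventually_gt_atTop 1).and
      (((tendsto_rpow_atTop (by norm_num : (0 : ℝ) < 3 / 10)).eventually_ge_atTop T0).and
      (Real.tendsto_log_atTop.eventually_ge_atTop _)))
  obtain ⟨X0, hX0⟩ := hev.exists_forall_of_atTop
  refine ⟨X0, fun X hX Z hZ => ?_⟩
  obtain ⟨hXX1, hX1, hXT, hXL⟩ := hX0 X hX
  have hXpos : 0 < X := by linarith
  set L : ℝ := Real.log X with hL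
  have hL0 : 0 < L := Real.log_pos hX1
  set N : ℕ := ⌊ε1 * L⌋₊ with hN
  have hre : ∀ ρ ∈ Z, ρ.re < 1 := by
    intro ρ hρ
    by_contra h
    push Not at h
    exact riemannZeta_ne_zero_of_one_le_re h (hZ ρ hρ).1
  set kk : ℂ → ℕ := fun ρ => ⌈(1 - ρ.re) * L⌉₊ with hkk
  have hkk0 : ∀ ρ ∈ Z, k0 ≤ kk ρ := by
    intro ρ hρ
    obtain ⟨h1, h2, h3, h4⟩ := hZ ρ hρ
    have h5 := hT ρ h1 (hXT.trans h3)
    have h6 : 0 < Real.log |ρ.im| := Real.log_pos (by linarith [hXT.trans h3])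
    have h7 : Real.log |ρ.im| ≤ L := by
      have h8 : |ρ.im| ≤ X := by
        refine h4.trans ?_
        calc X ^ (6 / 10 : ℝ) ≤ X ^ (1 : ℝ) :=
              Real.rpow_le_rpow_of_exponent_le hX1.le (by norm_num)
          _ = X := Real.rpow_one X
      exact Real.log_le_log (by linarith [hXT.trans h3]) h8
    have h9 : ((k0 : ℝ) + 1) / Real.log |ρ.im| ≤ 1 - ρ.re := by linarith
    have h10' : ((k0 : ℝ) + 1) ≤ (1 - ρ.re) * L := by
      calc ((k0 : ℝ) + 1) ≤ (1 - ρ.re) * Real.log |ρ.im| := by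
            rwa [div_le_iff₀ h6] at h9
        _ ≤ (1 - ρ.re) * L := mul_le_mul_of_nonneg_left h7 (by linarith [hre ρ hρ])
    have h11 : (k0 : ℝ) ≤ kk ρ := by
      have := Nat.le_ceil ((1 - ρ.re) * L)
      simp only [hkk]
      linarith
    exact_mod_cast h11
  have hkk1 : ∀ ρ ∈ Z, 1 ≤ kk ρ := by
    intro ρ hρ
    have : 0 < (1 - ρ.re) * L := mul_pos (by linarith [hre ρ hρ]) hL0
    exact Nat.ceil_pos.mpr this
  have hkkN : ∀ ρ ∈ Z, kk ρ ≤ N := by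
    intro ρ hρ
    rw [hN]
    apply Nat.le_floor
    have h1 : (1 - ρ.re) * L ≤ ε1 / 2 * L :=
      mul_le_mul_of_nonneg_right (by linarith [(hZ ρ hρ).2.1]) hL0.le
    have h2 : (kk ρ : ℝ) < (1 - ρ.re) * L + 1 :=
      Nat.ceil_lt_add_one (mul_nonneg (by linarith [hre ρ hρ]) hL0.le)
    have h3 : 2 ≤ ε1 * L := by
      have := (div_le_iff₀ hε1).mp hXL
      linarith
    linarith
  -- fiberwise
  set t : Finset ℕ := (Finset.range (N + 1)).filter (fun k => k0 ≤ k ∧ 1 ≤ k) with ht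
  have hmaps : ∀ ρ ∈ Z, kk ρ ∈ t := by
    intro ρ hρ
    rw [ht, Finset.mem_filter, Finset.mem_range]
    exact ⟨Nat.lt_succ_of_le (hkkN ρ hρ), hkk0 ρ hρ, hkk1 ρ hρ⟩
  rw [← Finset.sum_fiberwise_of_maps_to hmaps]
  refine le_trans ?_ (hk0 t (fun k hk => by
    rw [ht, Finset.mem_filter] at hk
    exact hk.2.1))
  apply Finset.sum_le_sum
  intro k hk
  rw [ht, Finset.mem_filter, Finset.mem_range] at hk
  have hkN : (k : ℝ) ≤ ε1 * L := by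
    have h1 : k ≤ N := by omega
    exact (Nat.le_floor_iff (by positivity)).mp h1
  have hk1 : (1 : ℝ) ≤ k := by exact_mod_cast hk.2.2
  have h1 : ∀ ρ ∈ Z.filter (fun ρ => kk ρ = k), mz ρ * X ^ (θ * (ρ.re - 1)) ≤
      mz ρ * Real.exp (θ * (1 - k)) := by
    intro ρ hρ
    rw [Finset.mem_filter] at hρ
    apply mul_le_mul_of_nonneg_left _ (mz_nonneg ρ)
    rw [Real.rpow_def_of_pos hXpos]
    apply Real.exp_le_exp.mpr
    have h2 : (kk ρ : ℝ) < (1 - ρ.re) * L + 1 :=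
      Nat.ceil_lt_add_one (mul_nonneg (by linarith [hre ρ hρ.1]) hL0.le)
    rw [hρ.2] at h2
    rw [← hL]
    have h3 : L * (ρ.re - 1) ≤ 1 - k := by linarith
    calc L * (θ * (ρ.re - 1)) = θ * (L * (ρ.re - 1)) := by ring
      _ ≤ θ * (1 - k) := mul_le_mul_of_nonneg_left h3 hθ0.le
  refine (Finset.sum_le_sum h1).trans ?_
  rw [← Finset.sum_mul]
  have h3 := hD X hXX1 k hk1 hkN (Z.filter (fun ρ => kk ρ = k)) (by
    intro ρ hρ
    rw [Finset.mem_filter] at hρ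
    refine ⟨(hZ ρ hρ.1).1, ?_, (hZ ρ hρ.1).2.2.1, (hZ ρ hρ.1).2.2.2⟩
    have h2 : (1 - ρ.re) * L ≤ kk ρ := Nat.le_ceil _
    rw [hρ.2] at h2
    have h4 : 1 - ρ.re ≤ k / L := by
      rw [le_div_iff₀ hL0]; exact h2
    rw [← hL]
    linarith)
  refine (mul_le_mul_of_nonneg_right h3 (Real.exp_pos _).le).trans (le_of_eq ?_)
  have h5 : Real.exp (k / 2 : ℝ) * Real.exp (θ * (1 - k)) =
      Real.exp θ * Real.exp (-(θ - 1 / 2) * k) := by
    rw [← Real.exp_add, ← Real.exp_add]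
    congr 1
    ring
  calc C * (k : ℝ) ^ 6 * Real.exp (k / 2) * Real.exp (θ * (1 - k)) =
      C * (k : ℝ) ^ 6 * (Real.exp (k / 2 : ℝ) * Real.exp (θ * (1 - k))) := by ring
    _ = _ := by rw [h5]; ring

/-- the low zeros contribute `o(1)` -/
theorem low_zerosG (ε B η θ : ℝ) (hη : 0 < η) (hθ : 0 < θ) : ∃ X0 : ℝ, ∀ X : ℝ, X0 ≤ X →
    ∀ Z : Finset ℂ, (∀ ρ ∈ Z, riemannZeta ρ = 0 ∧ 1 - ε ≤ ρ.re ∧ |ρ.im| ≤ B) →
    ∑ ρ ∈ Z, mz ρ * X ^ (θ * (ρ.re - 1)) ≤ η := by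
  obtain ⟨X0, hX0⟩ := Pool.Agent.Helper71.KSZ.low_zeros ε B η hη
  refine ⟨max 1 ((max X0 1) ^ (1 / θ)), fun X hX Z hZ => ?_⟩
  have hX1 : 1 ≤ X := (le_max_left _ _).trans hX
  have hX2 : (max X0 1) ^ (1 / θ) ≤ X := (le_max_right _ _).trans hX
  have h1 : X0 ≤ X ^ θ := by
    have h2 : ((max X0 1) ^ (1 / θ)) ^ θ ≤ X ^ θ :=
      Real.rpow_le_rpow (by positivity) hX2 hθ.le
    rw [← Real.rpow_mul (by positivity), one_div, inv_mul_cancel₀ hθ.ne', Real.rpow_one] at h2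
    exact (le_max_left _ _).trans h2
  have h3 := hX0 (X ^ θ) h1 Z hZ
  refine le_trans (le_of_eq (Finset.sum_congr rfl fun ρ _ => ?_)) h3
  rw [← Real.rpow_mul (by linarith)]

theorem theoremNθ (h10 : InA10) (hM : DensityM) (θ : ℝ) (hθ : 1 / 2 < θ) (hθ1 : θ ≤ 1) :
    ∃ ε : ℝ, 0 < ε ∧ ∀ η : ℝ, 0 < η → ∃ X0 : ℝ, ∀ X : ℝ, X0 ≤ X → ∀ Z : Finset ℂ,
      (∀ ρ ∈ Z, riemannZeta ρ = 0 ∧ 1 - ε ≤ ρ.re ∧ |ρ.im| ≤ X ^ (6 / 10 : ℝ)) →
      ∑ ρ ∈ Z, mz ρ * X ^ (θ * (ρ.re - 1)) ≤ η := by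
  classical
  have hθ0 : 0 < θ := by linarith
  obtain ⟨ε, hε, H⟩ := oneLevelG h10 hM θ hθ
  refine ⟨ε, hε, fun η hη => ?_⟩
  obtain ⟨X1, hX1⟩ := H (η / 4) (by linarith)
  obtain ⟨T0, hT0, hzf⟩ := h10 2
  -- the threshold between low and high zeros
  set B : ℝ := max (max (T0 ^ (10 / 3 : ℝ)) X1) 3 with hB
  have hB3 : 3 ≤ B := le_max_right _ _
  have hBX1 : X1 ≤ B := (le_max_right _ _).trans (le_max_left _ _)
  have hBT0 : T0 ^ (10 / 3 : ℝ) ≤ B := (le_max_left _ _).trans (le_max_left _ _)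
  obtain ⟨X2, hX2⟩ := low_zerosG ε (B ^ (6 / 10 : ℝ)) (η / 2) θ (by linarith) hθ0
  refine ⟨max X2 3, fun X hX Z hZ => ?_⟩
  have hXX2 : X2 ≤ X := (le_max_left _ _).trans hX
  have hX3 : 3 ≤ X := (le_max_right _ _).trans hX
  have hX0 : 0 < X := by linarith
  have hXone : 1 < X := by linarith
  rw [← Finset.sum_filter_add_sum_filter_not Z (fun ρ => |ρ.im| ≤ B ^ (6 / 10 : ℝ))]
  have hlow : ∑ ρ ∈ Z.filter (fun ρ => |ρ.im| ≤ B ^ (6 / 10 : ℝ)), mz ρ * X ^ (θ * (ρ.re - 1)) ≤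
      η / 2 := by
    refine hX2 X hXX2 _ fun ρ hρ => ?_
    rw [Finset.mem_filter] at hρ
    obtain ⟨h1, h2, -⟩ := hZ ρ hρ.1
    exact ⟨h1, h2, hρ.2⟩
  set Zh := Z.filter (fun ρ => ¬ |ρ.im| ≤ B ^ (6 / 10 : ℝ)) with hZh
  -- levels
  have hlev : ∀ ρ : ℂ, ρ ∈ Zh → ∃ j : ℕ, (X ^ ((1 / 2 : ℝ) ^ j)) ^ (3 / 10 : ℝ) ≤ |ρ.im| ∧
      |ρ.im| ≤ (X ^ ((1 / 2 : ℝ) ^ j)) ^ (6 / 10 : ℝ) := by
    intro ρ hρ
    rw [hZh, Finset.mem_filter, not_le] at hρ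
    obtain ⟨h1, h2, h3⟩ := hZ ρ hρ.1
    refine Pool.Agent.Helper71.KSZ.exists_level hXone ?_ h3
    exact lt_of_le_of_lt (Real.one_le_rpow (by linarith) (by norm_num)) hρ.2
  choose! lev hlev1 hlev2 using hlev
  have hhigh : ∑ ρ ∈ Zh, mz ρ * X ^ (θ * (ρ.re - 1)) ≤ η / 2 := by
    rw [← Finset.sum_fiberwise_of_maps_to (g := lev) (t := Zh.image lev)
      (fun ρ hρ => Finset.mem_image_of_mem _ hρ)]
    have hfib : ∀ j ∈ Zh.image lev, ∑ ρ ∈ Zh.filter (fun ρ => lev ρ = j),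
        mz ρ * X ^ (θ * (ρ.re - 1)) ≤ η / 4 * (1 / 2 : ℝ) ^ j := by
      intro j hj
      set Xj : ℝ := X ^ ((1 / 2 : ℝ) ^ j) with hXj
      have hXj0 : 0 < Xj := Real.rpow_pos_of_pos hX0 _
      -- facts about zeros of the fiber
      have hfacts : ∀ ρ ∈ Zh.filter (fun ρ => lev ρ = j), riemannZeta ρ = 0 ∧ 1 - ε ≤ ρ.re ∧
          Xj ^ (3 / 10 : ℝ) ≤ |ρ.im| ∧ |ρ.im| ≤ Xj ^ (6 / 10 : ℝ) ∧ B ^ (6 / 10 : ℝ) < |ρ.im| := by
        intro ρ hρ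
        rw [Finset.mem_filter] at hρ
        have hρZ := hρ.1
        rw [hZh, Finset.mem_filter, not_le] at hρZ
        obtain ⟨h1, h2, h3⟩ := hZ ρ hρZ.1
        have h4 := hlev1 ρ hρ.1
        have h5 := hlev2 ρ hρ.1
        rw [hρ.2] at h4 h5
        exact ⟨h1, h2, h4, h5, hρZ.2⟩
      -- the fiber is nonempty
      obtain ⟨ρ0, hρ0, hρ0j⟩ := Finset.mem_image.1 hj
      have hXjB : B < Xj := by
        obtain ⟨-, -, -, h5, h6⟩ := hfacts ρ0 (Finset.mem_filter.2 ⟨hρ0, hρ0j⟩)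
        have h7 : B ^ (6 / 10 : ℝ) < Xj ^ (6 / 10 : ℝ) := lt_of_lt_of_le h6 h5
        exact (Real.rpow_lt_rpow_iff (by linarith) hXj0.le (by norm_num)).1 h7
      have hXj1 : 1 < Xj := by linarith
      have hlogXj : 0 < Real.log Xj := Real.log_pos hXj1
      have hone := hX1 Xj (hBX1.trans hXjB.le) (Zh.filter (fun ρ => lev ρ = j)) (by
        intro ρ hρ
        obtain ⟨h1, h2, h3, h4, -⟩ := hfacts ρ hρ
        exact ⟨h1, h2, h3, h4⟩)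
      have hterm : ∀ ρ ∈ Zh.filter (fun ρ => lev ρ = j), mz ρ * X ^ (θ * (ρ.re - 1)) ≤
          (mz ρ * Xj ^ (θ * (ρ.re - 1))) * (1 / 2 : ℝ) ^ j := by
        intro ρ hρ
        obtain ⟨h1, h2, h3, h4, h5⟩ := hfacts ρ hρ
        have hT : T0 ≤ |ρ.im| := by
          have h6 : T0 ≤ Xj ^ (3 / 10 : ℝ) := by
            have h7 : (T0 ^ (10 / 3 : ℝ)) ^ (3 / 10 : ℝ) ≤ Xj ^ (3 / 10 : ℝ) :=
              Real.rpow_le_rpow (by positivity) (hBT0.trans hXjB.le) (by norm_num)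
            rw [← Real.rpow_mul (by linarith)] at h7
            norm_num at h7
            exact h7
          exact h6.trans h3
        have hz := hzf ρ h1 hT
        have him1 : 1 < |ρ.im| := by linarith
        have hlogim : 0 < Real.log |ρ.im| := Real.log_pos him1
        have hlogle : Real.log |ρ.im| ≤ Real.log Xj := by
          refine Real.log_le_log (by linarith) (h4.trans ?_)
          have h8 := Real.rpow_le_rpow_of_exponent_le hXj1.le (by norm_num : (6 / 10 : ℝ) ≤ 1)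
          rwa [Real.rpow_one] at h8
        have hx : 2 / Real.log Xj ≤ 1 - ρ.re := by
          have h9 : 2 / Real.log Xj ≤ 2 / Real.log |ρ.im| :=
            div_le_div_of_nonneg_left (by norm_num) hlogim hlogle
          linarith
        have hx' : 2 ≤ (1 - ρ.re) * Real.log Xj := by
          rwa [div_le_iff₀ hlogXj] at hx
        have hx'' : 1 ≤ θ * ((1 - ρ.re) * Real.log Xj) := by
          have : (1 / 2 : ℝ) * 2 ≤ θ * ((1 - ρ.re) * Real.log Xj) :=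
            mul_le_mul hθ.le hx' (by norm_num) hθ0.le
          linarith
        -- X = Xj ^ (2 ^ j)
        have hXXj : X ^ (θ * (ρ.re - 1)) = Xj ^ ((2 : ℝ) ^ j * (θ * (ρ.re - 1))) := by
          rw [hXj, ← Real.rpow_mul hX0.le, ← mul_assoc, ← mul_pow]
          norm_num
        rw [hXXj, mul_assoc]
        refine mul_le_mul_of_nonneg_left ?_ (mz_nonneg ρ)
        rw [show (2 : ℝ) ^ j * (θ * (ρ.re - 1)) =
          (θ * (ρ.re - 1)) + ((2 : ℝ) ^ j - 1) * (θ * (ρ.re - 1)) by ring,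
          Real.rpow_add hXj0]
        refine mul_le_mul_of_nonneg_left ?_ (Real.rpow_nonneg hXj0.le _)
        rw [Real.rpow_def_of_pos hXj0]
        have h2j : (j : ℝ) ≤ (2 : ℝ) ^ j - 1 := by
          have h10 : (1 : ℝ) + j * 1 ≤ (1 + 1) ^ j := one_add_mul_le_pow (by norm_num) j
          norm_num at h10
          linarith
        have h11 : Real.log Xj * (((2 : ℝ) ^ j - 1) * (θ * (ρ.re - 1))) ≤ -(j : ℝ) := by
          have h12 : (j : ℝ) * 1 ≤ ((2 : ℝ) ^ j - 1) * (θ * ((1 - ρ.re) * Real.log Xj)) :=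
            mul_le_mul h2j hx'' (by norm_num) (by linarith [Nat.cast_nonneg (α := ℝ) j])
          linarith
        refine (Real.exp_le_exp.2 h11).trans ?_
        have h13 : Real.exp (-(j : ℝ)) = (Real.exp (-1)) ^ j := by
          rw [← Real.exp_nat_mul]
          congr 1
          ring
        rw [h13]
        refine pow_le_pow_left₀ (Real.exp_pos _).le ?_ j
        rw [Real.exp_neg, one_div]
        refine inv_anti₀ (by norm_num) ?_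
        have := Real.add_one_le_exp (1 : ℝ)
        linarith
      calc ∑ ρ ∈ Zh.filter (fun ρ => lev ρ = j), mz ρ * X ^ (θ * (ρ.re - 1))
          ≤ ∑ ρ ∈ Zh.filter (fun ρ => lev ρ = j),
              (mz ρ * Xj ^ (θ * (ρ.re - 1))) * (1 / 2 : ℝ) ^ j :=
            Finset.sum_le_sum hterm
        _ = (∑ ρ ∈ Zh.filter (fun ρ => lev ρ = j), mz ρ * Xj ^ (θ * (ρ.re - 1))) *
              (1 / 2 : ℝ) ^ j := by
            rw [Finset.sum_mul]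
        _ ≤ η / 4 * (1 / 2 : ℝ) ^ j := mul_le_mul_of_nonneg_right hone (by positivity)
    calc ∑ j ∈ Zh.image lev, ∑ ρ ∈ Zh.filter (fun ρ => lev ρ = j), mz ρ * X ^ (θ * (ρ.re - 1))
        ≤ ∑ j ∈ Zh.image lev, η / 4 * (1 / 2 : ℝ) ^ j := Finset.sum_le_sum hfib
      _ = η / 4 * ∑ j ∈ Zh.image lev, (1 / 2 : ℝ) ^ j := by rw [Finset.mul_sum]
      _ ≤ η / 4 * 2 := by
          refine mul_le_mul_of_nonneg_left ?_ (by linarith)
          exact (summable_geometric_two.sum_le_tsum _ (fun j _ => by positivity)).trans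
            tsum_geometric_two.le
      _ = η / 2 := by ring
  linarith

/-- Theorem N for heights up to `X ^ τ`, `τ < 6/5` -/
theorem theoremNG (τ : ℝ) (hτ0 : 0 < τ) (hτ : τ < 6 / 5) :
    ∃ ε : ℝ, 0 < ε ∧ ∀ η : ℝ, 0 < η → ∃ X0 : ℝ, ∀ X : ℝ, X0 ≤ X → ∀ Z : Finset ℂ,
      (∀ ρ ∈ Z, riemannZeta ρ = 0 ∧ 1 - ε ≤ ρ.re ∧ |ρ.im| ≤ X ^ τ) →
      ∑ ρ ∈ Z, mz ρ * X ^ (ρ.re - 1) ≤ η := by
  -- it suffices to treat `τ ≥ 6/10`
  have main : ∀ τ : ℝ, 6 / 10 ≤ τ → τ < 6 / 5 →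
      ∃ ε : ℝ, 0 < ε ∧ ∀ η : ℝ, 0 < η → ∃ X0 : ℝ, ∀ X : ℝ, X0 ≤ X → ∀ Z : Finset ℂ,
      (∀ ρ ∈ Z, riemannZeta ρ = 0 ∧ 1 - ε ≤ ρ.re ∧ |ρ.im| ≤ X ^ τ) →
      ∑ ρ ∈ Z, mz ρ * X ^ (ρ.re - 1) ≤ η := by
    intro τ h1 h2
    have hτ0 : 0 < τ := by linarith
    set θ : ℝ := (6 / 10) / τ with hθ
    have hθ1 : θ ≤ 1 := by rw [hθ, div_le_one hτ0]; exact h1
    have hθ2 : 1 / 2 < θ := by rw [hθ, lt_div_iff₀ hτ0]; linarith
    have hθ0 : 0 < θ := by linarith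
    obtain ⟨ε, hε, H⟩ := theoremNθ Helper33.KSZ.inA10 densityM' θ hθ2 hθ1
    refine ⟨ε, hε, fun η hη => ?_⟩
    obtain ⟨X0, hX0⟩ := H η hη
    refine ⟨max 1 X0, fun X hX Z hZ => ?_⟩
    have hX1 : 1 ≤ X := (le_max_left _ _).trans hX
    have hXp : 0 < X := by linarith
    have hinv : 1 ≤ 1 / θ := by rw [le_div_iff₀ hθ0]; linarith
    have h3 : X0 ≤ X ^ (1 / θ) := by
      refine ((le_max_right _ _).trans hX).trans ?_
      calc X = X ^ (1 : ℝ) := (Real.rpow_one X).symm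
        _ ≤ X ^ (1 / θ) := Real.rpow_le_rpow_of_exponent_le hX1 hinv
    have h4 := hX0 (X ^ (1 / θ)) h3 Z (by
      intro ρ hρ
      obtain ⟨a, b, c⟩ := hZ ρ hρ
      refine ⟨a, b, c.trans (le_of_eq ?_)⟩
      rw [← Real.rpow_mul hXp.le]
      congr 1
      rw [hθ]
      field_simp)
    refine le_trans (le_of_eq (Finset.sum_congr rfl fun ρ _ => ?_)) h4
    rw [← Real.rpow_mul hXp.le]
    congr 2
    field_simp
  rcases le_total (6 / 10) τ with h | h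
  · exact main τ h hτ
  · obtain ⟨ε, hε, H⟩ := main (6 / 10) le_rfl (by norm_num)
    refine ⟨ε, hε, fun η hη => ?_⟩
    obtain ⟨X0, hX0⟩ := H η hη
    refine ⟨max 1 X0, fun X hX Z hZ => hX0 X ((le_max_right _ _).trans hX) Z fun ρ hρ => ?_⟩
    obtain ⟨a, b, c⟩ := hZ ρ hρ
    exact ⟨a, b, c.trans (Real.rpow_le_rpow_of_exponent_le ((le_max_left _ _).trans hX) h)⟩

end Pool.Agent.Helper18.KSZ
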